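import Pool.Agent.W930.HK.Mob

/-!
# Möbius inversion over the exponents `b` with `1 + M b` prime to `d`
-/

set_option autoImplicit false

open Finset

namespace Pool.Agent.Y683

open Pool.Agent.W192.HK

/-- the exponents `b` modulo `d` with `1 + M b` prime to `d` -/
def Eb (d M : ℕ) : Finset ℕ := (Finset.range d).filter (fun b => Nat.Coprime (1 + M * b) d)

/-- MOBB -/
def MOBB : Prop := ∀ d M : ℕ, 0 < d → 0 < M → ∃ t : ℕ → ℕ,
  Nat.totient d ≤ (Eb d M).card * M ∧
  ∀ G : ℕ → ℂ, ∑ b ∈ Eb d M, G b =
    ∑ r ∈ d.divisors.filter (fun r => Nat.Coprime r M),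
      ((ArithmeticFunction.moebius r : ℤ) : ℂ) *
        ∑ j ∈ Finset.range (d / r), G (t r + r * j)

theorem mobb : MOBB := by
  classical
  intro d M hd0 hM
  have hmem : ∀ a, a ∈ Eb d M ↔ a < d ∧ Nat.Coprime (1 + M * a) d := by
    intro a
    simp [Eb]
  have ht : ∀ r : ℕ, ∃ t : ℕ, Nat.Coprime r M → 0 < r → (t < r ∧
      ∀ b : ℕ, r ∣ 1 + M * b ↔ b ≡ t [MOD r]) := by
    intro r
    by_cases h : Nat.Coprime r M ∧ 0 < r
    · obtain ⟨h, hr⟩ := h
      obtain ⟨y, -, hy⟩ := Nat.exists_mul_mod_eq_of_coprime (r - 1) h.symm hr.ne'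
      have hy' : M * y + 1 ≡ 0 [MOD r] := by
        have h1 : M * y ≡ r - 1 [MOD r] := by
          have h3 : M * y % r = (r - 1) % r := by rw [hy]
          exact h3
        have h2 := h1.add_right 1
        have h3 : r - 1 + 1 = r := by omega
        rw [h3] at h2
        exact h2.trans (by simp [Nat.ModEq])
      refine ⟨y % r, fun _ _ => ⟨Nat.mod_lt _ hr, fun b => ?_⟩⟩
      constructor
      · intro hb
        have h1 : M * b + 1 ≡ M * y + 1 [MOD r] := by
          have h2 : M * b + 1 ≡ 0 [MOD r] := by
            rw [Nat.modEq_zero_iff_dvd, add_comm]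
            exact hb
          exact h2.trans hy'.symm
        have h2 : M * b ≡ M * y [MOD r] := Nat.ModEq.add_right_cancel' 1 h1
        have h3 : b ≡ y [MOD r] := Nat.ModEq.cancel_left_of_coprime h h2
        exact h3.trans (Nat.mod_modEq y r).symm
      · intro hb
        have h3 : b ≡ y [MOD r] := hb.trans (Nat.mod_modEq y r)
        have h4 : M * b + 1 ≡ M * y + 1 [MOD r] := (h3.mul_left M).add_right 1
        have h5 := h4.trans hy'
        rw [Nat.modEq_zero_iff_dvd] at h5
        rw [add_comm]
        exact h5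
    · exact ⟨0, fun h1 h2 => absurd ⟨h1, h2⟩ h⟩
  choose t ht using ht
  refine ⟨t, ?_, ?_⟩
  · -- the number of the exponents
    set g := Nat.gcd M d with hg
    have hg1 : 1 ≤ g := Nat.gcd_pos_of_pos_left _ hM
    have hgd : g ∣ d := Nat.gcd_dvd_right _ _
    have hgM : g ≤ M := Nat.gcd_le_left _ hM
    obtain ⟨-, hcard, -⟩ := Pool.Agent.W930.HK.h_mob d g hd0 hg1 hgd
    have hsub : (Ea d g) ⊆ (Eb d M).image (fun b => (1 + M * b) % d) := by
      intro a ha
      unfold Ea at ha
      rw [mem_filter, mem_range] at ha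
      obtain ⟨had, ha1, ha2⟩ := ha
      rw [mem_image]
      -- solve `1 + M b = a mod d`
      obtain ⟨M', hM'⟩ : ∃ M', M = g * M' := Nat.gcd_dvd_left M d
      obtain ⟨d', hd'⟩ := hgd
      have hg0 : 0 < g := hg1
      have hd'0 : 0 < d' := by
        rcases Nat.eq_zero_or_pos d' with h | h
        · rw [h, mul_zero] at hd'; omega
        · exact h
      have hcop : Nat.Coprime M' d' := by
        have h1 : Nat.gcd (g * M') (g * d') = g * 1 := by rw [← hM', ← hd', ← hg, mul_one]
        rw [Nat.gcd_mul_left] at h1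
        exact Nat.eq_of_mul_eq_mul_left hg0 h1
      -- `a + (d - 1) ≡ 0 mod g`
      have hag : g ∣ a + (d - 1) := by
        have h1 : a ≡ 1 [MOD g] := ha2
        have h2 : a + (d - 1) ≡ 1 + (d - 1) [MOD g] := h1.add_right _
        have h3 : 1 + (d - 1) = d := by omega
        rw [h3] at h2
        have h4 : d ≡ 0 [MOD g] := Nat.modEq_zero_iff_dvd.2 ⟨d', hd'⟩
        exact Nat.modEq_zero_iff_dvd.1 (h2.trans h4)
      obtain ⟨k, hk⟩ := hag
      obtain ⟨b, -, hb⟩ := Nat.exists_mul_mod_eq_of_coprime (k % d') hcop hd'0.ne'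
      have hb' : M' * b ≡ k [MOD d'] := by
        have : M' * b % d' = k % d' % d' := hb
        rw [Nat.mod_mod] at this
        exact this
      have h5 : M * (b % d) ≡ a + (d - 1) [MOD d] := by
        have h6 : M * (b % d) ≡ M * b [MOD d] := (Nat.mod_modEq b d).mul_left M
        refine h6.trans ?_
        rw [hk, hM', hd', mul_assoc]
        exact Nat.ModEq.mul_left' g hb'
      have h7 : 1 + M * (b % d) ≡ a [MOD d] := by
        have h8 := h5.add_left 1
        have h9 : 1 + (a + (d - 1)) = a + d := by omega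
        rw [h9] at h8
        exact h8.trans (by simp [Nat.ModEq])
      refine ⟨b % d, ?_, ?_⟩
      · rw [hmem]
        refine ⟨Nat.mod_lt _ hd0, ?_⟩
        have h8 := h7.gcd_eq
        rw [Nat.Coprime, h8]
        exact ha1
      · show (1 + M * (b % d)) % d = a
        have h8 : (1 + M * (b % d)) % d = a % d := h7
        rw [h8, Nat.mod_eq_of_lt had]
    have h1 : (Ea d g).card ≤ (Eb d M).card :=
      (card_le_card hsub).trans card_image_le
    calc Nat.totient d = (Ea d g).card * Nat.totient g := hcard.symm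
      _ ≤ (Eb d M).card * M := Nat.mul_le_mul h1 ((Nat.totient_le g).trans hgM)
  · intro G
    have h1 : ∑ a ∈ Eb d M, G a =
        ∑ a ∈ range d, G a * (if Nat.Coprime (1 + M * a) d then 1 else 0) := by
      simp only [mul_ite, mul_one, mul_zero]
      rw [← sum_filter]
      rfl
    have h2 : ∀ a, G a * (if Nat.Coprime (1 + M * a) d then 1 else 0) =
        ∑ r ∈ d.divisors, ((ArithmeticFunction.moebius r : ℤ) : ℂ) *
          (if r ∣ 1 + M * a then G a else 0) := by
      intro a
      rw [← Pool.Agent.W930.HK.sum_moebius_dvd d (1 + M * a) hd0, mul_sum]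
      refine sum_congr rfl fun r _ => ?_
      split_ifs <;> ring
    rw [h1, sum_congr rfl (fun a _ => h2 a), sum_comm, sum_filter]
    refine sum_congr rfl fun r hr => ?_
    have hrd : r ∣ d := (Nat.mem_divisors.1 hr).1
    have hr0 : 0 < r := Nat.pos_of_dvd_of_pos hrd hd0
    rw [← mul_sum]
    by_cases hrM : Nat.Coprime r M
    · rw [if_pos hrM]
      congr 1
      obtain ⟨ht1, ht2⟩ := ht r hrM hr0
      obtain ⟨e, he⟩ := hrd
      have he' : d / r = e := by
        rw [he, Nat.mul_div_cancel_left _ hr0]
      rw [he', ← sum_filter]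
      symm
      refine Finset.sum_bij (fun j _ => t r + r * j) ?_ ?_ ?_ (fun _ _ => rfl)
      · intro j hj
        rw [mem_range] at hj
        simp only [mem_filter, mem_range]
        refine ⟨?_, ?_⟩
        · rw [he]
          calc t r + r * j < r + r * j := by omega
            _ = r * (j + 1) := by ring
            _ ≤ r * e := Nat.mul_le_mul_left _ hj
        · rw [ht2]
          simp [Nat.ModEq]
      · intro j _ j' _ hjj
        have h4 : r * j = r * j' := by
          have h5 : t r + r * j = t r + r * j' := hjj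
          omega
        exact Nat.eq_of_mul_eq_mul_left hr0 h4
      · intro a ha
        simp only [mem_filter, mem_range] at ha
        have h3 : a ≡ t r [MOD r] := (ht2 a).1 ha.2
        have h4 : a % r = t r := by
          have h5 : a % r = t r % r := h3
          rw [h5, Nat.mod_eq_of_lt ht1]
        refine ⟨a / r, ?_, ?_⟩
        · rw [mem_range]
          rw [Nat.div_lt_iff_lt_mul hr0, mul_comm, ← he]
          exact ha.1
        · show t r + r * (a / r) = a
          rw [← h4]
          exact Nat.mod_add_div a r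
    · rw [if_neg hrM]
      have h3 : ∀ a ∈ range d, (if r ∣ 1 + M * a then G a else 0) = 0 := by
        intro a _
        rw [if_neg]
        intro hra
        apply hrM
        have h4 : Nat.gcd r M ∣ 1 + M * a := (Nat.gcd_dvd_left r M).trans hra
        have h5 : Nat.gcd r M ∣ M * a := (Nat.gcd_dvd_right r M).mul_right a
        exact Nat.dvd_one.1 ((Nat.dvd_add_left h5).1 h4)
      rw [sum_eq_zero h3, mul_zero]

end Pool.Agent.Y683
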