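import Pool.Agent.W240.HK.Dualp0
import Pool.Agent.Y683.Mob

/-!
# The dual term, uniformly in the multiplicative function, the weight function and the length
-/

set_option autoImplicit false

open Complex Filter Topology Set

namespace Pool.Agent.Y683

open Pool.Agent.W192.HK
open Pool.Agent.W192.CY (S_DIV)
open Pool.Agent.W822.CM.Dualp (avg pow_le_of exp_le_of)
open Pool.Agent.W359.HK.Dualp (pw_norm geom gcoef)

open Classical in
/-- the average over `b` of the product of the values -/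
theorem key {R : Subring ℂ} {χ : Ideal R → ℂ} {d M : ℕ} (hod : Od χ d)
    (hM : 1 ≤ M) (hh : Ideal R) (T : Finset R) (hhh : χ hh ≠ 0) (K : ℝ)
    (hker : ∀ e : ℕ, e ∣ d → ∀ ζ : ℂ,
      ((T.filter (fun x : R => χ (sp x) ≠ 0 ∧ χ (sp x) ^ (d / e) = ζ)).card : ℝ) ≤ K / e)
    (k : R → ℂ) (κ : ℝ) (hk : ∀ x, ‖k x‖ ≤ κ) (I J : Ideal R) :
    ‖∑ a ∈ Eb d M, pw χ a I * ((starRingEnd ℂ) (pw χ a J) *
      ∑ x ∈ T, pw χ a (sp x) * k x / pw χ a hh)‖ ≤ d.divisors.card * K * κ := by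
  have hκ : 0 ≤ κ := (norm_nonneg _).trans (hk 0)
  have hK : 0 ≤ K := by
    have h1 := hker 1 (one_dvd _) 1
    have h2 : (0 : ℝ) ≤ K / ((1 : ℕ) : ℝ) := le_trans (Nat.cast_nonneg _) h1
    simpa using h2
  have hnn : (0 : ℝ) ≤ d.divisors.card * K * κ := by positivity
  by_cases hI : χ I = 0
  · rw [Finset.sum_eq_zero fun a _ => by simp [pw, hI], norm_zero]
    exact hnn
  by_cases hJ : χ J = 0
  · rw [Finset.sum_eq_zero fun a _ => by simp [pw, hJ], norm_zero]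
    exact hnn
  set T' := T.filter (fun x : R => χ (sp x) ≠ 0) with hT'
  set ξ : R → ℂ := fun x => χ I * (starRingEnd ℂ) (χ J) * χ (sp x) / χ hh with hξ
  have hξd : ∀ x ∈ T', ξ x ^ d = 1 := by
    intro x hx
    rw [hT', Finset.mem_filter] at hx
    show (χ I * (starRingEnd ℂ) (χ J) * χ (sp x) / χ hh) ^ d = 1
    rw [div_pow, mul_pow, mul_pow, ← map_pow, hod.pow I hI, hod.pow J hJ, hod.pow _ hx.2,
      hod.pow _ hhh, map_one]
    norm_num
  have hξn : ∀ x ∈ T', ‖ξ x‖ = 1 := by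
    intro x hx
    exact Complex.norm_eq_one_of_pow_eq_one (hξd x hx) hod.pos.ne'
  have e1 : ∀ a, pw χ a I * ((starRingEnd ℂ) (pw χ a J) *
      ∑ x ∈ T, pw χ a (sp x) * k x / pw χ a hh) = ∑ x ∈ T', ξ x ^ a * k x := by
    intro a
    rw [hT', Finset.sum_filter, Finset.mul_sum, Finset.mul_sum]
    refine Finset.sum_congr rfl fun x _ => ?_
    by_cases hx : χ (sp x) = 0
    · simp [pw, hx]
    · rw [if_pos hx]
      simp only [pw, if_neg hI, if_neg hJ, if_neg hx, if_neg hhh, map_pow, hξ]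
      rw [div_pow, mul_pow, mul_pow]
      ring
  rw [Finset.sum_congr rfl fun a _ => e1 a, Finset.sum_comm]
  obtain ⟨t, -, ht⟩ := mobb d M hod.pos hM
  set D := d.divisors.filter (fun r => Nat.Coprime r M) with hD
  have hrMd : ∀ r ∈ D, r ∣ d := by
    intro r hr
    rw [hD, Finset.mem_filter] at hr
    exact Nat.dvd_of_mem_divisors hr.1
  have e2 : ∀ x ∈ T', ‖∑ a ∈ Eb d M, ξ x ^ a * k x‖ ≤
      (∑ r ∈ D, if ξ x ^ r = 1 then ((d / r : ℕ) : ℝ) else 0) * κ := by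
    intro x hx
    rw [← Finset.sum_mul, norm_mul]
    refine mul_le_mul ?_ (hk x) (norm_nonneg _)
      (Finset.sum_nonneg fun r _ => by split_ifs <;> positivity)
    rw [ht (fun a => ξ x ^ a)]
    refine (norm_sum_le _ _).trans (Finset.sum_le_sum fun r hr => ?_)
    rw [norm_mul]
    have h5 : ‖((ArithmeticFunction.moebius r : ℤ) : ℂ)‖ ≤ 1 := by
      rw [Complex.norm_intCast]
      exact_mod_cast ArithmeticFunction.abs_moebius_le_one
    have h6 := geom (ξ x) (hξn x hx) (t r) r (d / r)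
      (by rw [Nat.mul_div_cancel' (hrMd r hr)]; exact hξd x hx)
    calc _ ≤ 1 * _ := mul_le_mul h5 h6 (norm_nonneg _) zero_le_one
      _ = _ := one_mul _
  calc ‖∑ x ∈ T', ∑ a ∈ Eb d M, ξ x ^ a * k x‖
      ≤ ∑ x ∈ T', (∑ r ∈ D, if ξ x ^ r = 1 then ((d / r : ℕ) : ℝ) else 0) * κ :=
        (norm_sum_le _ _).trans (Finset.sum_le_sum e2)
    _ = (∑ r ∈ D, ∑ x ∈ T', if ξ x ^ r = 1 then ((d / r : ℕ) : ℝ) else 0) * κ := by
        rw [← Finset.sum_mul, Finset.sum_comm]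
    _ ≤ (∑ r ∈ D, K) * κ := by
        refine mul_le_mul_of_nonneg_right (Finset.sum_le_sum fun r hr => ?_) hκ
        rw [← Finset.sum_filter, Finset.sum_const, nsmul_eq_mul]
        have hrM := hrMd r hr
        have hrM0 : 0 < r := Nat.pos_of_dvd_of_pos hrM hod.pos
        have hpos : 0 < d / r := Nat.div_pos (Nat.le_of_dvd hod.pos hrM) hrM0
        have h7 := hker (d / r) (Nat.div_dvd_of_dvd hrM)
          ((χ hh / (χ I * (starRingEnd ℂ) (χ J))) ^ r)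
        rw [Nat.div_div_self hrM hod.pos.ne', le_div_iff₀ (by exact_mod_cast hpos)] at h7
        refine le_trans (mul_le_mul_of_nonneg_right ?_ (Nat.cast_nonneg _)) h7
        have hle : (T'.filter (fun x => ξ x ^ r = 1)).card ≤
            (T.filter (fun x : R => χ (sp x) ≠ 0 ∧ χ (sp x) ^ r =
              (χ hh / (χ I * (starRingEnd ℂ) (χ J))) ^ r)).card := by
          refine Finset.card_le_card fun x hx => ?_
          rw [Finset.mem_filter, hT', Finset.mem_filter] at hx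
          obtain ⟨⟨hxT, hx0⟩, hx1⟩ := hx
          rw [Finset.mem_filter]
          refine ⟨hxT, hx0, ?_⟩
          have hJ' : (starRingEnd ℂ) (χ J) ≠ 0 := by
            intro h
            exact hJ ((map_eq_zero _).1 h)
          have hIJ : (χ I * (starRingEnd ℂ) (χ J)) ^ r ≠ 0 :=
            pow_ne_zero _ (mul_ne_zero hI hJ')
          have hh' : χ hh ^ r ≠ 0 := pow_ne_zero _ hhh
          have hx2 : (χ I * (starRingEnd ℂ) (χ J) * χ (sp x) / χ hh) ^ r = 1 := hx1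
          rw [div_pow, mul_pow, div_eq_one_iff_eq hh'] at hx2
          rw [div_pow, eq_div_iff hIJ, ← hx2, mul_comm]
        exact_mod_cast hle
    _ ≤ _ := by
        rw [Finset.sum_const, nsmul_eq_mul]
        refine mul_le_mul_of_nonneg_right (mul_le_mul_of_nonneg_right ?_ hK) hκ
        exact_mod_cast Finset.card_filter_le _ _

/-- DUALB -/
def DUALB : Prop := ∀ CV : ℝ, ∀ (R : Subring ℂ) (ω : ℂ), QR R ω →
  ∀ mu : Ideal R → ℝ, Mu R mu → ∀ M : ℕ, 1 ≤ M → ∀ ε : ℝ, 0 < ε → ε < 1 / 12 →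
  ∃ δ C : ℝ, 0 < δ ∧ 0 < C ∧ ∀ V : ℝ → ℝ, VH V CV → ∀ g : Ideal R → ℂ, Gd R g →
  ∀ (c : Ideal R) (χ : Ideal R → ℂ), RC c χ → ∀ d : ℕ, Od χ d →
  ∀ (hh : Ideal R) (T : Finset R), hh ≠ ⊥ → IsCoprime hh c → Rp c hh T →
  ∀ k : R → ℂ, (∀ x : R, ‖k x‖ ≤ (nm c) ^ (-1 / 2 : ℝ)) →
  ∀ Y : ℝ, 0 < Y → Y ≤ (d : ℝ) ^ 2 * (nm c) ^ (-1 - 2 * ε) →
  ‖∑ a ∈ Eb d M, mol mu g ((nm c) ^ (ε / 2)) (pw χ a) *
      (∑ x ∈ T, pw χ a (sp x) * k x / pw χ a hh) *
      (starRingEnd ℂ) (smo V g Y (pw χ a))‖ ≤ C * d * (nm c) ^ (-δ)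

theorem dualb (h0 : S_DIV) (h1 : H_BASIC) (h2 : H_CNT) (h3 : H_KER) (h5 : H_FPR) : DUALB := by
  classical
  intro CV R ω hR mu hm M hM ε hε hε'
  by_cases hCVp : 0 < CV
  swap
  · exact ⟨1, 1, one_pos, one_pos, fun V hV => absurd hV.pos hCVp⟩
  obtain ⟨-, hbot, hnm1, -, -, -, -, -, -⟩ := h1 R ω hR
  obtain ⟨Cd, hCd, hC, -⟩ := h0 (ε / 8) (by linarith)
  obtain ⟨-, hsumm, C2, hC2, -, hcnt⟩ := h2 R ω hR
  obtain ⟨C3, hC3, hker⟩ := h3 R ω hR
  have hfpr := h5 R ω hR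
  set s : ℝ := 1 / 2 + ε / 8 with hs
  have hs0 : 0 ≤ s := by rw [hs]; linarith
  have hs1 : s ≤ 1 := by rw [hs]; linarith
  have hsum : Summable (fun I : Ideal R => Real.sqrt (nm I) ^ (-(1 + 2 * s))) := by
    refine (hsumm (1 + ε / 8) (by linarith)).congr fun I => ?_
    have hnI : (0 : ℝ) ≤ nm I := Nat.cast_nonneg _
    rw [Real.sqrt_eq_rpow, ← Real.rpow_mul hnI]
    congr 1
    rw [hs]; ring
  set S : ℝ := ∑' I : Ideal R, Real.sqrt (nm I) ^ (-(1 + 2 * s)) with hS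
  have hS0 : 0 ≤ S := tsum_nonneg fun α => Real.rpow_nonneg (Real.sqrt_nonneg _) _
  set A : ℝ := Cd * C2 ^ (ε / 8) * C3 with hA
  have hA0 : 0 < A := by rw [hA]; positivity
  refine ⟨ε / 4, A * (CV * 2) * S ^ 2 * (C2 ^ 2) ^ (ε / 8) + 1, by linarith, by positivity, ?_⟩
  intro V hV g hg c χ hχ d hod hh T hhb hcop hT k hk Y hY0 hYd
  have hCV := hV.pos
  obtain ⟨-, hn, -, -⟩ := hfpr c χ hχ
  have hN1 : 1 ≤ nm c := hnm1 c hχ.ne
  set N : ℝ := nm c with hN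
  have hN0 : 0 < N := by linarith
  have hhh : χ hh ≠ 0 := by
    intro h
    rcases (hχ.zero hh).1 h with h' | h'
    · exact hhb h'
    · exact h' hcop
  have hdN : (d : ℝ) ≤ C2 * N := (hcnt c χ hχ d hod).1
  have hd1 : 1 ≤ d := hod.pos
  have hd0 : (0 : ℝ) < d := by exact_mod_cast hod.pos
  have hτ : (d.divisors.card : ℝ) ≤ Cd * (C2 ^ (ε / 8) * N ^ (ε / 8)) := by
    refine (hC _ hd1).trans (mul_le_mul_of_nonneg_left ?_ hCd.le)
    rw [← Real.mul_rpow hC2.le hN0.le]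
    exact Real.rpow_le_rpow (Nat.cast_nonneg _) hdN (by linarith)
  set K0 : ℝ := d.divisors.card * (C3 * nm c) * N ^ (-1 / 2 : ℝ) with hK0
  have hK0' : K0 ≤ A * N ^ (1 / 2 + ε / 8) := by
    rw [hK0]
    calc (d.divisors.card : ℝ) * (C3 * nm c) * N ^ (-1 / 2 : ℝ)
        ≤ (Cd * (C2 ^ (ε / 8) * N ^ (ε / 8))) * (C3 * N) * N ^ (-1 / 2 : ℝ) := by
          gcongr
      _ = A * (N ^ (ε / 8) * N ^ (1 : ℝ) * N ^ (-1 / 2 : ℝ)) := by
          rw [Real.rpow_one, hA]; ring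
      _ = A * N ^ (1 / 2 + ε / 8) := by
          rw [← Real.rpow_add hN0, ← Real.rpow_add hN0]
          congr 2
          ring
  have hK00 : 0 ≤ K0 := by
    have : (0 : ℝ) ≤ nm c := Nat.cast_nonneg _
    rw [hK0]; positivity
  set B : ℝ := N ^ (ε / 2) with hB
  have hsq : ∀ I : Ideal R, Real.sqrt (nm I) ^ 2 = nm I := fun I =>
    Real.sq_sqrt (Nat.cast_nonneg _)
  have hpos : ∀ I : Ideal R, I ≠ ⊥ → 0 < Real.sqrt (nm I) := fun I hI =>
    Real.sqrt_pos.2 (by have := hnm1 I hI; linarith)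
  -- coefficients
  set b : Ideal R → ℂ := fun I => if nm I ≤ B then
    ((mu I : ℂ) * g I) / (nm I : ℂ) else 0 with hb
  set a : Ideal R → ℂ := fun I => (starRingEnd ℂ) (g I / (nm I : ℂ) *
    (V (nm I / Y) : ℂ)) with ha
  have hbb : ∀ I, ‖b I‖ ≤ B ^ s * Real.sqrt (nm I) ^ (-(1 + 2 * s)) := by
    intro I
    have hnn : 0 ≤ B ^ s * Real.sqrt (nm I) ^ (-(1 + 2 * s)) := by positivity
    rw [hb]
    show ‖if nm I ≤ B then ((mu I : ℂ) * g I) / (nm I : ℂ) else 0‖ ≤ _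
    split_ifs with h
    · by_cases h0 : I = ⊥
      · rw [h0] at hnn ⊢
        refine le_trans (le_of_eq ?_) hnn
        rw [hbot, Complex.ofReal_zero, div_zero, norm_zero]
      · rw [mul_div_assoc, norm_mul, Complex.norm_real, Real.norm_eq_abs]
        calc _ ≤ 1 * Real.sqrt (nm I) ^ (-1 : ℝ) :=
              mul_le_mul (hm.le I) (gcoef hg I) (norm_nonneg _) zero_le_one
          _ = Real.sqrt (nm I) ^ (-1 : ℝ) := one_mul _
          _ ≤ _ := pow_le_of (hpos I h0) hs0 (by rw [hsq]; exact h)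
    · rw [norm_zero]; exact hnn
  have hab : ∀ I, ‖a I‖ ≤ (CV * (2 * Y) ^ s) * Real.sqrt (nm I) ^ (-(1 + 2 * s)) := by
    intro I
    have hnn : 0 ≤ (CV * (2 * Y) ^ s) * Real.sqrt (nm I) ^ (-(1 + 2 * s)) := by positivity
    rw [ha]
    show ‖(starRingEnd ℂ) (g I / (nm I : ℂ) * (V (nm I / Y) : ℂ))‖ ≤ _
    rw [RCLike.norm_conj, norm_mul, Complex.norm_real, Real.norm_eq_abs]
    by_cases h0 : I = ⊥
    · rw [h0] at hnn ⊢
      rw [hg.zero, zero_div, norm_zero, zero_mul]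
      exact hnn
    · have hp := hpos I h0
      have hx : 0 ≤ nm I / Y := div_nonneg (Nat.cast_nonneg _) hY0.le
      refine (mul_le_mul (gcoef hg I) (hV.dec _ hx) (abs_nonneg _)
        (Real.rpow_nonneg (Real.sqrt_nonneg _) _)).trans ?_
      have e1 : nm I / Y / 2 = Real.sqrt (nm I) ^ 2 / (2 * Y) := by
        rw [hsq]; field_simp
      rw [e1]
      have e2 := mul_le_mul_of_nonneg_left (exp_le_of hp (by positivity : (0 : ℝ) < 2 * Y) hs0 hs1)
        hCV.le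
      calc _ = CV * (Real.sqrt (nm I) ^ (-1 : ℝ) *
            Real.exp (-(Real.sqrt (nm I) ^ 2 / (2 * Y)))) := by ring
        _ ≤ _ := e2
        _ = _ := by ring
  have hbs : Summable (fun β => ‖b β‖) :=
    Summable.of_nonneg_of_le (fun _ => norm_nonneg _) hbb (hsum.mul_left _)
  have has : Summable (fun α => ‖a α‖) :=
    Summable.of_nonneg_of_le (fun _ => norm_nonneg _) hab (hsum.mul_left _)
  have hbt : ∑' β, ‖b β‖ ≤ B ^ s * S := by
    rw [hS, ← tsum_mul_left]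
    exact hbs.tsum_le_tsum hbb (hsum.mul_left _)
  have hat : ∑' α, ‖a α‖ ≤ (CV * (2 * Y) ^ s) * S := by
    rw [hS, ← tsum_mul_left]
    exact has.tsum_le_tsum hab (hsum.mul_left _)
  -- rewriting
  have emol : ∀ u : Ideal R → ℂ, mol mu g B u = ∑' I : Ideal R, u I * b I := by
    intro u
    unfold mol
    refine tsum_congr fun I => ?_
    rw [hb]
    show (if nm I ≤ B then u I * ((mu I : ℂ) * g I) / (nm I : ℂ) else 0) = u I *
      (if nm I ≤ B then ((mu I : ℂ) * g I) / (nm I : ℂ) else 0)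
    split_ifs
    · rw [mul_div_assoc]
    · rw [mul_zero]
  have esmo : ∀ u : Ideal R → ℂ, (starRingEnd ℂ) (smo V g Y u) =
      ∑' I : Ideal R, (starRingEnd ℂ) (u I) * a I := by
    intro u
    unfold smo
    rw [Complex.conj_tsum]
    refine tsum_congr fun I => ?_
    rw [ha]
    show _ = (starRingEnd ℂ) (u I) * (starRingEnd ℂ) (g I / (nm I : ℂ) *
      (V (nm I / Y) : ℂ))
    rw [← map_mul]
    congr 1
    ring
  have etot : ∑ x ∈ Eb d M, mol mu g B (pw χ x) *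
      (∑ y ∈ T, pw χ x (sp y) * k y / pw χ x hh) * (starRingEnd ℂ) (smo V g Y (pw χ x)) =
      ∑ x ∈ Eb d M, (∑' I : Ideal R, pw χ x I * b I) *
        ((∑ y ∈ T, pw χ x (sp y) * k y / pw χ x hh) *
        ∑' J : Ideal R, (starRingEnd ℂ) (pw χ x J) * a J) := by
    refine Finset.sum_congr rfl fun x _ => ?_
    rw [emol, esmo]
    ring
  have hin : ∀ I : Ideal R, ‖∑ x ∈ Eb d M, pw χ x I *
        ((∑ y ∈ T, pw χ x (sp y) * k y / pw χ x hh) *
        ∑' J : Ideal R, (starRingEnd ℂ) (pw χ x J) * a J)‖ ≤ K0 * ∑' α, ‖a α‖ := by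
    intro I
    have e : ∑ x ∈ Eb d M, pw χ x I * ((∑ y ∈ T, pw χ x (sp y) * k y / pw χ x hh) *
        ∑' J : Ideal R, (starRingEnd ℂ) (pw χ x J) * a J) = ∑ x ∈ Eb d M,
        (∑' J : Ideal R, (starRingEnd ℂ) (pw χ x J) * a J) *
          (pw χ x I * (∑ y ∈ T, pw χ x (sp y) * k y / pw χ x hh)) := by
      refine Finset.sum_congr rfl fun x _ => ?_
      ring
    rw [e]
    refine avg (Eb d M) (fun x J => (starRingEnd ℂ) (pw χ x J)) (fun x J => ?_) a has _ K0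
      (fun J => ?_)
    · rw [RCLike.norm_conj]; exact pw_norm hn x J
    · have e2 : ∑ x ∈ Eb d M, (starRingEnd ℂ) (pw χ x J) *
          (pw χ x I * (∑ y ∈ T, pw χ x (sp y) * k y / pw χ x hh)) = ∑ x ∈ Eb d M, pw χ x I *
          ((starRingEnd ℂ) (pw χ x J) * (∑ y ∈ T, pw χ x (sp y) * k y / pw χ x hh)) := by
        refine Finset.sum_congr rfl fun x _ => ?_
        ring
      rw [e2]
      exact key hod hM hh T hhh (C3 * nm c)
        (fun e he ζ => hker c χ hχ d hod e he c hh T dvd_rfl hχ.ne hT ζ) k _ hk I J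
  have hout := avg (Eb d M) (fun x I => pw χ x I) (fun x I => pw_norm hn x I) b hbs
    (fun x => (∑ y ∈ T, pw χ x (sp y) * k y / pw χ x hh) *
        ∑' J : Ideal R, (starRingEnd ℂ) (pw χ x J) * a J) (K0 * ∑' α, ‖a α‖) hin
  -- the size of `Y`
  have hYs : Y ^ s ≤ d * N ^ (-1 / 2 - ε) * ((C2 ^ 2) ^ (ε / 8) * N ^ (ε / 8)) := by
    have hY1 : Y ≤ C2 ^ 2 * N := by
      refine hYd.trans ?_
      calc (d : ℝ) ^ 2 * N ^ (-1 - 2 * ε) ≤ (C2 * N) ^ 2 * N ^ (-1 : ℝ) := by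
            have : N ^ (-1 - 2 * ε) ≤ N ^ (-1 : ℝ) :=
              Real.rpow_le_rpow_of_exponent_le hN1 (by linarith)
            gcongr
        _ = C2 ^ 2 * N := by
            rw [Real.rpow_neg_one]
            field_simp
    have hY2 : Y ^ (1 / 2 : ℝ) ≤ d * N ^ (-1 / 2 - ε) := by
      calc Y ^ (1 / 2 : ℝ) ≤ ((d : ℝ) ^ 2 * N ^ (-1 - 2 * ε)) ^ (1 / 2 : ℝ) := by gcongr
        _ = d * N ^ (-1 / 2 - ε) := by
            rw [Real.mul_rpow (by positivity) (by positivity), ← Real.rpow_mul hN0.le,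
              ← Real.rpow_natCast, ← Real.rpow_mul hd0.le]
            norm_num
            left
            congr 1
            ring
    rw [hs, Real.rpow_add hY0]
    refine mul_le_mul hY2 ?_ (by positivity) (by positivity)
    rw [← Real.mul_rpow (by positivity) hN0.le]
    exact Real.rpow_le_rpow hY0.le hY1 (by linarith)
  have h2s : (2 : ℝ) ^ s ≤ 2 := by
    calc (2 : ℝ) ^ s ≤ 2 ^ (1 : ℝ) := Real.rpow_le_rpow_of_exponent_le (by norm_num) hs1
      _ = 2 := Real.rpow_one 2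
  rw [etot]
  refine hout.trans ?_
  have hA0' : 0 ≤ ∑' α, ‖a α‖ := tsum_nonneg fun _ => norm_nonneg _
  have hB0 : 0 ≤ ∑' β, ‖b β‖ := tsum_nonneg fun _ => norm_nonneg _
  calc K0 * (∑' α, ‖a α‖) * ∑' β, ‖b β‖
      ≤ (A * N ^ (1 / 2 + ε / 8)) * ((CV * (2 * Y) ^ s) * S) * (B ^ s * S) := by
        gcongr
    _ = (A * N ^ (1 / 2 + ε / 8)) * ((CV * ((2 : ℝ) ^ s * Y ^ s)) * S) * (B ^ s * S) := by
        rw [Real.mul_rpow (by norm_num) hY0.le]
    _ ≤ (A * N ^ (1 / 2 + ε / 8)) * ((CV * (2 *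
          (d * N ^ (-1 / 2 - ε) * ((C2 ^ 2) ^ (ε / 8) * N ^ (ε / 8))))) * S) * (B ^ s * S) := by
        gcongr
    _ = (A * (CV * 2) * S ^ 2 * (C2 ^ 2) ^ (ε / 8)) * d *
          (N ^ (1 / 2 + ε / 8) * N ^ (-1 / 2 - ε) * N ^ (ε / 8) * N ^ (ε / 2 * s)) := by
        rw [hB, ← Real.rpow_mul hN0.le]
        ring
    _ = (A * (CV * 2) * S ^ 2 * (C2 ^ 2) ^ (ε / 8)) * d *
          N ^ (1 / 2 + ε / 8 + (-1 / 2 - ε) + ε / 8 + ε / 2 * s) := by
        rw [← Real.rpow_add hN0, ← Real.rpow_add hN0, ← Real.rpow_add hN0]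
    _ ≤ (A * (CV * 2) * S ^ 2 * (C2 ^ 2) ^ (ε / 8) + 1) * d * N ^ (-(ε / 4)) := by
        have h8 : N ^ (1 / 2 + ε / 8 + (-1 / 2 - ε) + ε / 8 + ε / 2 * s) ≤ N ^ (-(ε / 4)) := by
          apply Real.rpow_le_rpow_of_exponent_le hN1
          rw [hs]
          nlinarith
        have h9 : 0 ≤ A * (CV * 2) * S ^ 2 * (C2 ^ 2) ^ (ε / 8) := by positivity
        gcongr
        linarith

end Pool.Agent.Y683
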