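import Pool.Agent.W883.HK.Tail

/-!
# The tail sum over the ideals with `χ(I)^(d/e) = 1`, arbitrary length `Z ≤ d² N(c)^(-ε)`
-/

set_option autoImplicit false

namespace Pool.Agent.Y683

open Pool.Agent.W192.HK
open Pool.Agent.W346.CM (case2)
open Pool.Agent.W196.CY (pw rpow_mul_exp_neg_le_one)
open Pool.Agent.W883.HK (fiber_bound summ)

/-- large `Y` -/
theorem case1 {ε η δ Q D Y Z c E h K C : ℝ} (hε : 0 < ε) (hε4 : ε < 1 / 12) (hη : 0 ≤ η)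
    (hδ : 0 < δ) (hpar : 2 * η + 2 * δ ≤ ε) (hpar2 : 8 * η + 4 * δ ≤ ε)
    (hη4 : η ≤ 1 / 16) (hδ4 : δ ≤ 1 / 16)
    (hQ : 1 ≤ Q) (hD : Q ^ (2 / 3 + ε) ≤ D) (hC : 1 ≤ C) (hDC : D ≤ C * Q) (hE : 0 ≤ E)
    (hED : E ≤ D) (hh : E * h ≤ Q) (hK : 0 ≤ K) (hZ0 : 0 < Z) (hZ : Z ≤ D ^ 2 * Q ^ (-ε))
    (hY : Q ^ (2 / 3 : ℝ) ≤ Y)
    (hc : c ≤ K * Y ^ η * (Y / Q + 1) * h) :
    E * c * Y ^ (-1 / 2 + η) * Real.exp (-(Y / (2 * Z))) ≤
      (2 * C + 1) * K * (D * Q ^ (-δ)) * Y ^ (-δ / 2) := by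
  have hQ0 : 0 < Q := lt_of_lt_of_le one_pos hQ
  have hY0 : 0 < Y := lt_of_lt_of_le (Real.rpow_pos_of_pos hQ0 _) hY
  have hDp : 0 < D := lt_of_lt_of_le (Real.rpow_pos_of_pos hQ0 _) hD
  have hD1 : 1 ≤ D := le_trans (Real.one_le_rpow hQ (by linarith)) hD
  have h1 := pw (j := 1) (K := K) (η := η) (c := c) (h := h) le_rfl hQ0 hY0 hE hED hh hK
    (by simpa using hc)
  rw [pow_one, pow_one, Nat.sub_self, pow_zero, mul_one] at h1
  set X := Real.exp (-(Y / (2 * Z))) with hX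
  have hX0 : 0 < X := Real.exp_pos _
  have hX1 : X ≤ 1 := by
    rw [hX, Real.exp_le_one_iff]
    have : 0 < Y / (2 * Z) := by positivity
    linarith
  have hDQ : Q ^ (2 / 3 + ε - δ) ≤ D * Q ^ (-δ) := by
    have h2 : Q ^ (2 / 3 + ε - δ) = Q ^ (2 / 3 + ε) * Q ^ (-δ) := by
      rw [← Real.rpow_add hQ0]; ring_nf
    rw [h2]
    exact mul_le_mul_of_nonneg_right hD (Real.rpow_nonneg hQ0.le _)
  -- first part
  have hp1 : Y ^ (1 / 2 + 2 * η + δ / 2) * X ≤ 2 * C * (D * Q ^ (-δ)) := by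
    have h2 : Y ^ (1 / 2 + 2 * η + δ / 2) * X =
        (2 * Z) ^ (1 / 2 + 2 * η + δ / 2) * ((Y / (2 * Z)) ^ (1 / 2 + 2 * η + δ / 2) * X) := by
      rw [← mul_assoc, ← Real.mul_rpow (by positivity) (by positivity)]
      congr 2
      field_simp
    rw [h2]
    have h3 : (Y / (2 * Z)) ^ (1 / 2 + 2 * η + δ / 2) * X ≤ 1 :=
      rpow_mul_exp_neg_le_one (by positivity) (by linarith) (by linarith)
    have h4 : (2 * Z) ^ (1 / 2 + 2 * η + δ / 2) ≤ 2 * (C * (D * Q ^ (-δ))) := by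
      rw [Real.mul_rpow (by norm_num) hZ0.le]
      have h5 : (2 : ℝ) ^ (1 / 2 + 2 * η + δ / 2) ≤ 2 := by
        calc (2 : ℝ) ^ (1 / 2 + 2 * η + δ / 2) ≤ (2 : ℝ) ^ (1 : ℝ) :=
              Real.rpow_le_rpow_of_exponent_le (by norm_num) (by linarith)
          _ = 2 := Real.rpow_one 2
      have h6 : Z ^ (1 / 2 + 2 * η + δ / 2) ≤ C * (D * Q ^ (-δ)) := by
        calc Z ^ (1 / 2 + 2 * η + δ / 2) ≤ (D ^ 2 * Q ^ (-ε)) ^ (1 / 2 + 2 * η + δ / 2) :=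
              Real.rpow_le_rpow hZ0.le hZ (by linarith)
          _ = (D ^ 2) ^ (1 / 2 + 2 * η + δ / 2) * Q ^ (-ε * (1 / 2 + 2 * η + δ / 2)) := by
              rw [Real.mul_rpow (by positivity) (by positivity), ← Real.rpow_mul hQ0.le]
          _ = (D ^ (1 : ℝ) * D ^ (4 * η + δ)) * Q ^ (-ε * (1 / 2 + 2 * η + δ / 2)) := by
              rw [← Real.rpow_natCast, ← Real.rpow_mul hDp.le, ← Real.rpow_add hDp]
              congr 2
              push_cast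
              ring
          _ ≤ (D ^ (1 : ℝ) * (C * Q) ^ (4 * η + δ)) * Q ^ (-ε * (1 / 2 + 2 * η + δ / 2)) := by
              gcongr
              
          _ ≤ (D * (C * Q ^ (4 * η + δ))) * Q ^ (-ε / 2) := by
              rw [Real.rpow_one, Real.mul_rpow (by linarith) hQ0.le]
              have hC' : C ^ (4 * η + δ) ≤ C := by
                calc C ^ (4 * η + δ) ≤ C ^ (1 : ℝ) :=
                      Real.rpow_le_rpow_of_exponent_le hC (by linarith)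
                  _ = C := Real.rpow_one C
              have hQe : Q ^ (-ε * (1 / 2 + 2 * η + δ / 2)) ≤ Q ^ (-ε / 2) := by
                apply Real.rpow_le_rpow_of_exponent_le hQ
                have : 0 ≤ ε * (2 * η + δ / 2) := by positivity
                linarith
              gcongr
          _ = C * (D * (Q ^ (4 * η + δ) * Q ^ (-ε / 2))) := by ring
          _ ≤ C * (D * Q ^ (-δ)) := by
              rw [← Real.rpow_add hQ0]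
              have : Q ^ (4 * η + δ + -ε / 2) ≤ Q ^ (-δ) := by
                apply Real.rpow_le_rpow_of_exponent_le hQ
                linarith
              gcongr
      exact mul_le_mul h5 h6 (Real.rpow_nonneg hZ0.le _) (by norm_num)
    calc _ ≤ (2 * Z) ^ (1 / 2 + 2 * η + δ / 2) * 1 :=
          mul_le_mul_of_nonneg_left h3 (Real.rpow_nonneg (by positivity) _)
      _ ≤ _ := by rw [mul_one]; linarith
  have hp2 : Q * Y ^ (-1 / 2 + 2 * η + δ / 2) * X ≤ Q ^ (2 / 3 + ε - δ) := by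
    have h2 : Y ^ (-1 / 2 + 2 * η + δ / 2) ≤ (Q ^ (2 / 3 : ℝ)) ^ (-1 / 2 + 2 * η + δ / 2) :=
      Real.rpow_le_rpow_of_nonpos (Real.rpow_pos_of_pos hQ0 _) hY (by linarith)
    have h3 : Q * Y ^ (-1 / 2 + 2 * η + δ / 2) ≤ Q ^ (2 / 3 + ε - δ) := by
      calc Q * Y ^ (-1 / 2 + 2 * η + δ / 2) ≤
            Q * (Q ^ (2 / 3 : ℝ)) ^ (-1 / 2 + 2 * η + δ / 2) :=
            mul_le_mul_of_nonneg_left h2 hQ0.le
        _ = Q ^ (1 + 2 / 3 * (-1 / 2 + 2 * η + δ / 2)) := by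
            rw [← Real.rpow_mul hQ0.le, Real.rpow_add hQ0, Real.rpow_one]
        _ ≤ _ := by
            apply Real.rpow_le_rpow_of_exponent_le hQ
            linarith
    calc Q * Y ^ (-1 / 2 + 2 * η + δ / 2) * X ≤ Q * Y ^ (-1 / 2 + 2 * η + δ / 2) * 1 :=
          mul_le_mul_of_nonneg_left hX1 (mul_nonneg hQ0.le (Real.rpow_nonneg hY0.le _))
      _ ≤ _ := by rw [mul_one]; exact h3
  have hYd : 0 < Y ^ (-δ / 2) := Real.rpow_pos_of_pos hY0 _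
  have e1 : Y ^ η * Y * Y ^ (-1 / 2 + η) = Y ^ (1 / 2 + 2 * η + δ / 2) * Y ^ (-δ / 2) := by
    nth_rewrite 2 [← Real.rpow_one Y]
    rw [← Real.rpow_add hY0, ← Real.rpow_add hY0, ← Real.rpow_add hY0]
    ring_nf
  have e2 : Y ^ η * Y ^ (-1 / 2 + η) = Y ^ (-1 / 2 + 2 * η + δ / 2) * Y ^ (-δ / 2) := by
    rw [← Real.rpow_add hY0, ← Real.rpow_add hY0]
    ring_nf
  calc E * c * Y ^ (-1 / 2 + η) * X ≤ (K * Y ^ η * (Y + Q)) * Y ^ (-1 / 2 + η) * X := by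
        apply mul_le_mul_of_nonneg_right _ hX0.le
        exact mul_le_mul_of_nonneg_right h1 (Real.rpow_nonneg hY0.le _)
    _ = K * (Y ^ η * Y * Y ^ (-1 / 2 + η) * X + Q * (Y ^ η * Y ^ (-1 / 2 + η)) * X) := by ring
    _ = K * ((Y ^ (1 / 2 + 2 * η + δ / 2) * X + Q * Y ^ (-1 / 2 + 2 * η + δ / 2) * X)
          * Y ^ (-δ / 2)) := by rw [e1, e2]; ring
    _ ≤ K * (((2 * C + 1) * (D * Q ^ (-δ))) * Y ^ (-δ / 2)) := by
        apply mul_le_mul_of_nonneg_left _ hK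
        apply mul_le_mul_of_nonneg_right _ hYd.le
        linarith
    _ = _ := by ring

/-- TAIL, general length -/
def TAILZ : Prop := ∀ (R : Subring ℂ) (ω : ℂ), QR R ω → ∀ ε : ℝ, 0 < ε → ε < 1 / 12 →
  ∃ η δ C : ℝ, 0 < η ∧ η < 1 / 8 ∧ 0 < δ ∧ 0 < C ∧
  ∀ (c : Ideal R) (χ : Ideal R → ℂ), RC c χ → ∀ d : ℕ, Od χ d → (nm c) ^ (2 / 3 + ε) ≤ d →
  ∀ Z : ℝ, 0 < Z → Z ≤ (d : ℝ) ^ 2 * (nm c) ^ (-ε) →
  ∀ e : ℕ, e ∣ d →
    (e : ℝ) * tailI χ (d / e) ((nm c) ^ (ε / 2)) Z η ≤ C * d * (nm c) ^ (-δ)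

/-- the block estimate -/
theorem block (hB : H_BASIC) (hN : H_CNT) (hC : H_COUNT) {R : Subring ℂ} {ω : ℂ} (hR : QR R ω)
    {ε : ℝ} (hε : 0 < ε) (hε4 : ε < 1 / 12) :
    ∃ K : ℝ, 0 < K ∧ ∀ (c : Ideal R) (χ : Ideal R → ℂ), RC c χ → ∀ Q : ℝ, Q = nm c →
      ∀ d : ℕ, Od χ d → Q ^ (2 / 3 + ε) ≤ d → ∀ Z : ℝ, 0 < Z → Z ≤ (d : ℝ) ^ 2 * Q ^ (-ε) →
      ∀ e : ℕ, e ∣ d →
      ∀ Y : ℝ, 1 ≤ Y → Q ^ (ε / 2) < Y →
      (e : ℝ) * cntI χ (d / e) Y * Y ^ (-1 / 2 + ε / 16) *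
        Real.exp (-(Y / (2 * Z))) ≤
        K * (d * Q ^ (-(ε ^ 2 / 4))) * Y ^ (-(ε ^ 2 / 4) / 2) := by
  have hη : 0 < ε / 16 := by positivity
  have hδ : 0 < ε ^ 2 / 4 := by positivity
  have hδ1 : ε ^ 2 / 4 ≤ ε / 48 := by nlinarith
  obtain ⟨J, hJdef⟩ : ∃ J : ℕ, J = ⌈2 / ε⌉₊ := ⟨_, rfl⟩
  have hJ1 : 2 ≤ ε * J := by
    have h1 : 2 / ε ≤ J := by rw [hJdef]; exact Nat.le_ceil _
    rw [div_le_iff₀ hε] at h1
    linarith
  have hJ2 : (J : ℝ) * (ε ^ 2 / 4) ≤ ε / 2 + ε / 48 := by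
    have h1 : (J : ℝ) < 2 / ε + 1 := by rw [hJdef]; exact Nat.ceil_lt_add_one (by positivity)
    have h3 : (2 / ε + 1) * (ε ^ 2 / 4) = ε / 2 + ε ^ 2 / 4 := by field_simp; ring
    have h4 := mul_le_mul_of_nonneg_right h1.le hδ.le
    linarith
  have hex : ∀ j : ℕ, ∃ C : ℝ, 0 < C ∧ (1 ≤ j → ∀ (c : Ideal R) (χ : Ideal R → ℂ), RC c χ →
      ∀ d : ℕ, Od χ d → ∀ e : ℕ, e ∣ d → ∀ y : ℝ, 1 ≤ y →
        (cntI χ (d / e) y : ℝ) ^ j ≤
          C * y ^ (ε / 16) * (y ^ j / nm c + 1) * (nm c / e)) := by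
    intro j
    by_cases hj : 1 ≤ j
    · obtain ⟨C, hC0, hC1⟩ := hC R ω hR j hj (ε / 16) hη
      exact ⟨C, hC0, fun _ => hC1⟩
    · exact ⟨1, one_pos, fun h => absurd h hj⟩
  choose Cj hCj0 hCj using hex
  obtain ⟨-, -, C0, hC0, -, hcn⟩ := hN R ω hR
  obtain ⟨K, hK⟩ : ∃ K : ℝ, K = 1 + ∑ j ∈ Finset.range (J + 1), Cj j := ⟨_, rfl⟩
  have hKj : ∀ j, j ≤ J → Cj j ≤ K := by
    intro j hj
    have h1 : Cj j ≤ ∑ j ∈ Finset.range (J + 1), Cj j :=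
      Finset.single_le_sum (f := Cj) (fun i _ => (hCj0 i).le) (by simp; omega)
    linarith
  have hK1 : 1 ≤ K := by
    have : 0 ≤ ∑ j ∈ Finset.range (J + 1), Cj j := Finset.sum_nonneg fun i _ => (hCj0 i).le
    linarith
  refine ⟨(2 * (C0 + 1) + 4) * K, by positivity, ?_⟩
  intro c χ hχ Q hQdef d hOd hd Z hZ0 hZ e hed Y hY1 hYB
  have hQ1 : 1 ≤ Q := by
    rw [hQdef]
    exact (hB R ω hR).2.2.1 c hχ.ne
  have hd0 : 0 < d := hOd.pos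
  have he0 : 0 < e := Nat.pos_of_dvd_of_pos hed hd0
  have he0' : (0 : ℝ) < e := by exact_mod_cast he0
  have hE : (e : ℝ) ≤ d := by exact_mod_cast Nat.le_of_dvd hd0 hed
  have hY0 : 0 < Y := by linarith
  have hQ0 : 0 < Q := by linarith
  have hEh : (e : ℝ) * (Q / e) ≤ Q := by
    rw [mul_div_cancel₀ _ he0'.ne']
  have hcK : ∀ j : ℕ, 1 ≤ j → j ≤ J → (cntI χ (d / e) Y : ℝ) ^ j ≤
      K * Y ^ (ε / 16) * (Y ^ j / Q + 1) * (Q / e) := by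
    intro j hj hjJ
    have h2 := hCj j hj c χ hχ d hOd e hed Y hY1
    rw [← hQdef] at h2
    refine h2.trans ?_
    have := hKj j hjJ
    gcongr
  have hJpos : 1 ≤ J := by
    rcases Nat.eq_zero_or_pos J with h0 | h0
    · rw [h0] at hJ1
      norm_num at hJ1
    · exact h0
  have hdC : (d : ℝ) ≤ (C0 + 1) * Q := by
    have := (hcn c χ hχ d hOd).1
    rw [← hQdef] at this
    linarith
  have hd0' : (0 : ℝ) < d := by exact_mod_cast hd0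
  have hQδ : 0 < Q ^ (-(ε ^ 2 / 4)) := Real.rpow_pos_of_pos hQ0 _
  have hYδ : 0 < Y ^ (-(ε ^ 2 / 4) / 2) := Real.rpow_pos_of_pos hY0 _
  rcases le_or_gt (Q ^ (2 / 3 : ℝ)) Y with h | h
  · have h2 := case1 (ε := ε) (η := ε / 16) (δ := ε ^ 2 / 4) (Q := Q) (D := d) (Y := Y) (Z := Z)
      (c := cntI χ (d / e) Y) (E := e) (h := Q / e) (K := K) (C := C0 + 1) hε hε4 hη.le hδ
      (by linarith) (by linarith)
      (by linarith) (by linarith) hQ1 hd (by linarith) hdC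
      (Nat.cast_nonneg _) hE hEh (by linarith) hZ0 hZ h (by
        have := hcK 1 le_rfl hJpos
        simpa using this)
    refine h2.trans ?_
    have h4 : 0 ≤ K * (d * Q ^ (-(ε ^ 2 / 4))) * Y ^ (-(ε ^ 2 / 4) / 2) := by positivity
    nlinarith
  · have hQ : (1 : ℝ) < Q := by
      rcases hQ1.eq_or_lt with h1 | h1
      · rw [← h1, Real.one_rpow] at h
        linarith
      · exact h1
    have h2 := case2 (ε := ε) (η := ε / 16) (δ := ε ^ 2 / 4) (Q := Q) (D := d) (Y := Y)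
      (c := cntI χ (d / e) Y) (E := e) (h := Q / e) (K := K) (J := J) hε hη.le hδ
      (by linarith) (by linarith) (by linarith) hQ hd
      (Nat.cast_nonneg _) (Nat.cast_nonneg _) hE hEh hK1 h hY1 hYB hcK
    have h3 : Real.exp (-(Y / (2 * Z))) ≤ 1 := by
      rw [Real.exp_le_one_iff]
      have : 0 ≤ Y / (2 * Z) := by positivity
      linarith
    have h5 : (e : ℝ) * cntI χ (d / e) Y * Y ^ (-1 / 2 + ε / 16) * Real.exp (-(Y / (2 * Z))) ≤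
        4 * K * (d * Q ^ (-(ε ^ 2 / 4))) * Y ^ (-(ε ^ 2 / 4) / 2) := by
      refine le_trans ?_ h2
      exact mul_le_of_le_one_right (by positivity) h3
    refine h5.trans ?_
    have h4 : 0 ≤ K * (d * Q ^ (-(ε ^ 2 / 4))) * Y ^ (-(ε ^ 2 / 4) / 2) := by positivity
    nlinarith

theorem tailz (h1 : H_BASIC) (h2 : H_CNT) (h3 : H_COUNT) : TAILZ := by
  classical
  intro R ω hR ε hε hε4
  obtain ⟨K, hK, hb⟩ := block h1 h2 h3 hR hε hε4
  obtain ⟨hfin, hsm, -⟩ := h2 R ω hR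
  have hδ : 0 < ε ^ 2 / 4 := by positivity
  obtain ⟨δ, hδd⟩ : ∃ δ : ℝ, δ = ε ^ 2 / 4 := ⟨_, rfl⟩
  rw [← hδd] at hb hδ
  obtain ⟨r, hr⟩ : ∃ r : ℝ, r = (2 : ℝ) ^ (-δ / 2) := ⟨_, rfl⟩
  have hr0 : 0 < r := by rw [hr]; exact Real.rpow_pos_of_pos (by norm_num) _
  have hr1 : r < 1 := by
    rw [hr]; exact Real.rpow_lt_one_of_one_lt_of_neg (by norm_num) (by linarith)
  refine ⟨ε / 16, δ, 2 * K * (1 - r)⁻¹, by positivity, by linarith, hδ,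
    by have := sub_pos.mpr hr1; positivity, ?_⟩
  intro c χ hχ d hOd hd Z hZ0 hZ e hed
  obtain ⟨Q, hQ⟩ : ∃ Q : ℝ, Q = nm c := ⟨_, rfl⟩
  rw [← hQ] at hd hZ ⊢
  have hQ1 : 1 ≤ Q := by
    rw [hQ]
    exact (h1 R ω hR).2.2.1 c hχ.ne
  have hQ0 : 0 < Q := by linarith
  have hB0 : 0 < Q ^ (ε / 2) := Real.rpow_pos_of_pos hQ0 _
  have hblock : ∀ Y : ℝ, 1 ≤ Y → Q ^ (ε / 2) < Y →
      (e : ℝ) * cntI χ (d / e) Y * Y ^ (-1 / 2 + ε / 16) *
        Real.exp (-(Y / (2 * Z))) ≤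
        K * (d * Q ^ (-δ)) * Y ^ (-δ / 2) := hb c χ hχ Q hQ d hOd hd Z hZ0 hZ e hed
  obtain ⟨B, hB⟩ : ∃ B : ℝ, B = Q ^ (ε / 2) := ⟨_, rfl⟩
  rw [← hB] at hblock hB0 ⊢
  obtain ⟨A, hA⟩ : ∃ A : ℝ, A = (d : ℝ) * Q ^ (-δ) := ⟨_, rfl⟩
  rw [← hA] at hblock
  have hA0 : 0 ≤ A := by rw [hA]; positivity
  have hr1' := sub_pos.mpr hr1
  have hgoal : 2 * K * (1 - r)⁻¹ * d * Q ^ (-δ) = 2 * K * A * (1 - r)⁻¹ := by
    rw [hA]; ring
  rw [hgoal, tailI, ← tsum_mul_left]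
  apply tsum_le_of_sum_le' (by positivity)
  intro u
  rw [← Finset.mul_sum]
  obtain ⟨n, hn⟩ : ∃ n : ℕ, ∀ I ∈ u, Nat.log 2 (Nat.card (R ⧸ I)) < n :=
    ⟨u.sup (fun I : Ideal R => Nat.log 2 (Nat.card (R ⧸ I))) + 1, fun I hI =>
      Nat.lt_succ_of_le (Finset.le_sup (f := fun I : Ideal R => Nat.log 2 (Nat.card (R ⧸ I))) hI)⟩
  rw [← Finset.sum_fiberwise_of_maps_to (s := u) (t := Finset.range n)
    (g := fun I : Ideal R => Nat.log 2 (Nat.card (R ⧸ I)))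
    (fun I hI => Finset.mem_range.2 (hn I hI)), Finset.mul_sum]
  have hterm : ∀ i ∈ Finset.range n, (e : ℝ) *
      (∑ I ∈ u.filter (fun I : Ideal R => Nat.log 2 (Nat.card (R ⧸ I)) = i),
        (if B < nm I ∧ χ I ≠ 0 ∧ χ I ^ (d / e) = 1
      then (nm I) ^ (-1 / 2 + ε / 16) * Real.exp (-(nm I / Z)) else 0)) ≤
      2 * K * A * r ^ i := by
    intro i _
    have h1 := fiber_bound hfin χ (d / e) hB0 hZ0 (η := ε / 16) (by linarith) (by positivity)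
      (u.filter (fun I : Ideal R => Nat.log 2 (Nat.card (R ⧸ I)) = i)) i
      (fun k hk => (Finset.mem_filter.mp hk).2)
    refine (mul_le_mul_of_nonneg_left h1 (Nat.cast_nonneg _)).trans ?_
    split_ifs with hBi
    · have h2 := hblock ((2 : ℝ) ^ (i + 1)) (one_le_pow₀ (by norm_num)) hBi
      have h3 : ((2 : ℝ) ^ (i + 1)) ^ (-δ / 2) ≤ r ^ i := by
        have h4 : ((2 : ℝ) ^ (i + 1)) ^ (-δ / 2) = r ^ (i + 1) := by
          rw [hr, ← Real.rpow_natCast, ← Real.rpow_natCast, ← Real.rpow_mul (by norm_num),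
            ← Real.rpow_mul (by norm_num), mul_comm]
        rw [h4, pow_succ]
        exact mul_le_of_le_one_right (by positivity) hr1.le
      calc _ = 2 * ((e : ℝ) * cntI χ (d / e) ((2 : ℝ) ^ (i + 1)) *
              ((2 : ℝ) ^ (i + 1)) ^ (-1 / 2 + ε / 16)
              * Real.exp (-((2 : ℝ) ^ (i + 1) / (2 * Z)))) := by ring
        _ ≤ 2 * (K * A * ((2 : ℝ) ^ (i + 1)) ^ (-δ / 2)) := by linarith
        _ ≤ 2 * (K * A * r ^ i) := by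
            have : K * A * ((2 : ℝ) ^ (i + 1)) ^ (-δ / 2) ≤ K * A * r ^ i :=
              mul_le_mul_of_nonneg_left h3 (by positivity)
            linarith
        _ = _ := by ring
    · rw [mul_zero]; positivity
  refine (Finset.sum_le_sum hterm).trans ?_
  rw [← Finset.mul_sum]
  apply mul_le_mul_of_nonneg_left _ (by positivity)
  rw [← tsum_geometric_of_lt_one hr0.le hr1]
  exact (summable_geometric_of_lt_one hr0.le hr1).sum_le_tsum _ (fun i _ => by positivity)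

end Pool.Agent.Y683
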