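import Pool.Agent.W648.HK.Mainp0
import Pool.Agent.W216.CY.Div
import Pool.Agent.Y683.Mob
import Pool.Agent.Y683.Tail

/-!
# The main term, uniformly in the multiplicative function, the weight function and the length
-/

set_option autoImplicit false

namespace Pool.Agent.Y683

open Finset
open Pool.Agent.W192.HK
open Pool.Agent.W648.HK.Mainp0

/-- MAINB -/
def MAINB : Prop := ∀ CV : ℝ, ∀ (R : Subring ℂ) (ω : ℂ), QR R ω →
  ∀ mu : Ideal R → ℝ, Mu R mu → ∀ M : ℕ, 1 ≤ M → ∀ ε : ℝ, 0 < ε → ε < 1 / 12 →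
  ∃ δ C : ℝ, 0 < δ ∧ 0 < C ∧ ∀ V : ℝ → ℝ, VH V CV → ∀ g : Ideal R → ℂ, Gd R g →
  ∀ (c : Ideal R) (χ : Ideal R → ℂ), RC c χ → ∀ d : ℕ, Od χ d → (nm c) ^ (2 / 3 + ε) ≤ d →
  ∀ X : ℝ, (nm c) ^ (1 / 3 : ℝ) ≤ X → (nm c) ^ (ε / 2) * (2 * X) ≤ (d : ℝ) ^ 2 * (nm c) ^ (-ε) →
  ‖∑ b ∈ Eb d M, mol mu g ((nm c) ^ (ε / 2)) (pw χ b) * smo V g X (pw χ b) -
      ((Eb d M).card : ℂ)‖ ≤ C * d * (nm c) ^ (-δ)

theorem mainb (h1 : H_BASIC) (h2 : H_CNT) (h3 : H_DIVR) (h4 : TAILZ) : MAINB := by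
  classical
  have h0 := Pool.Agent.W216.CY.t_div
  intro CV R ω hR m hm M hM1 ε hε hε4
  by_cases hCVp : 0 < CV
  swap
  · exact ⟨1, 1, one_pos, one_pos, fun V hV => absurd hV.pos hCVp⟩
  have h := bf h1 h2 h3 hR
  obtain ⟨η, δ0, C0, hη, hη8, hδ0, hC0, htail⟩ := h4 R ω hR ε hε hε4
  obtain ⟨C1, hC1pos, hdiv⟩ := h3 R ω hR η hη
  obtain ⟨hfinS, -, C2, hC2pos, hcnt, hC3⟩ := h2 R ω hR
  obtain ⟨ρ, hρ, hρ1, hρ2⟩ : ∃ ρ : ℝ, 0 < ρ ∧ 2 * ρ ≤ δ0 ∧ 2 * ρ ≤ 1 / 12 := by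
    refine ⟨min δ0 (1 / 12) / 2, by positivity, ?_, ?_⟩
    · linarith [min_le_left δ0 (1 / 12)]
    · linarith [min_le_right δ0 (1 / 12)]
  obtain ⟨Cb, hCb, hdivb, _⟩ := h0 ρ hρ
  refine ⟨ρ, Cb * C2 ^ ρ * (CV * (C1 * C2) + CV * C1 * C0) + CV, hρ, by positivity, ?_⟩
  intro V hV g hg c χ hχ d hd hdq X hX1 hX2
  have hCV := hV.pos
  obtain ⟨N, hN⟩ : ∃ N : ℝ, N = nm c := ⟨_, rfl⟩
  have hN1 : 1 ≤ N := by rw [hN]; exact h.one_le c hχ.ne
  rw [← hN] at hdq hX1 hX2 ⊢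
  have hNpos : 0 < N := by linarith
  obtain ⟨t, -, hmob⟩ := mobb d M hd.pos hM1
  have hX : 0 < X := lt_of_lt_of_le (Real.rpow_pos_of_pos hNpos _) hX1
  obtain ⟨B, hBdef⟩ : ∃ B : ℝ, B = N ^ (ε / 2) := ⟨_, rfl⟩
  have hB : 1 ≤ B := by rw [hBdef]; exact Real.one_le_rpow hN1 (by positivity)
  obtain ⟨S, hS⟩ : ∃ S : Finset (Ideal R), ∀ J, J ∈ S ↔ nm J ≤ B := by
    refine ⟨(hfinS B).toFinset, fun J => ?_⟩
    rw [Set.Finite.mem_toFinset]
    rfl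
  have hScard : (S.card : ℝ) ≤ C2 * B := by
    have h7 := hcnt B hB
    have h8 : {J : Ideal R | nm J ≤ B} = (S : Set (Ideal R)) := by
      ext J
      rw [mem_coe, hS]
      rfl
    rw [h8, Set.ncard_coe_finset] at h7
    exact h7
  have hdpos : 0 < d := hd.pos
  have hdR : (0 : ℝ) < d := by exact_mod_cast hdpos
  have hdle : (d : ℝ) ≤ C2 * N := by
    rw [hN]
    exact (hC3 c χ hχ d hd).1
  -- the divisors
  obtain ⟨RR, hRdef⟩ : ∃ RR : Finset ℕ, RR = d.divisors.filter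
    (fun r => Nat.Coprime r M) := ⟨_, rfl⟩
  have hRd : ∀ r ∈ RR, r ∣ d := by
    intro r hr
    rw [hRdef, mem_filter, Nat.mem_divisors] at hr
    exact hr.1.1
  have hRcard : RR.card ≤ d.divisors.card := by
    rw [hRdef]
    exact card_filter_le _ _
  have hEm : ((Eb d M).card : ℂ) = ∑ r ∈ RR, ((ArithmeticFunction.moebius r : ℤ) : ℂ) *
      ((d / r : ℕ) : ℂ) := by
    have g1 := hmob (fun _ => 1)
    rw [← hRdef] at g1
    simp only [sum_const, nsmul_eq_mul, mul_one, card_range] at g1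
    exact g1
  have hEmle : ((Eb d M).card : ℝ) ≤ d := by
    have g1 : (Eb d M).card ≤ (Finset.range d).card := card_filter_le _ _
    rw [card_range] at g1
    exact_mod_cast g1
  obtain ⟨P, hP⟩ : ∃ P : ℕ → ℂ, ∀ r, P r =
      ∑' I : Ideal R, AA χ r (t r) I * hh V m g X S I := ⟨_, fun _ => rfl⟩
  have hsum : ∑ a ∈ Eb d M, mol m g B (pw χ a) * smo V g X (pw χ a) =
      ∑ r ∈ RR, ((ArithmeticFunction.moebius r : ℤ) : ℂ) *
        (((d / r : ℕ) : ℂ) * P r) := by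
    rw [hmob (fun a => mol m g B (pw χ a) * smo V g X (pw χ a)), ← hRdef]
    refine sum_congr rfl fun r hr => ?_
    rw [one_r hV h hg hX hS hχ hd (t r) r _ (Nat.mul_div_cancel' (hRd r hr)), hP]
  rw [← hBdef, hsum, hEm]
  have hT : ∀ r ∈ RR, ((d / r : ℕ) : ℝ) * ‖P r - (V (1 / X) : ℂ)‖ ≤
      CV * (C1 * C2 * (d * (B ^ 2 / Real.sqrt X))) + CV * C1 * (C0 * d * N ^ (-δ0)) := by
    intro r hr
    obtain ⟨e, he⟩ : ∃ e : ℕ, e = d / r := ⟨_, rfl⟩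
    have hrd := hRd r hr
    have hed : e ∣ d := by rw [he]; exact Nat.div_dvd_of_dvd hrd
    have hde : d / e = r := by rw [he]; exact Nat.div_div_self hrd hdpos.ne'
    rw [hP, ← he]
    have hele : (e : ℝ) ≤ d := by
      exact_mod_cast Nat.le_of_dvd hdpos hed
    have b1 := pe hV h hm hg η C1 C2 hη8 hC1pos (fun I hI => (hdiv I hI).2)
      hB hX hS hScard χ r (AA χ r (t r)) (AA_norm hd _ _)
      (AA_top h hχ _ _)
    have b2 := htail c χ hχ d hd (by rw [← hN]; exact hdq) (B * (2 * X)) (by positivity)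
      (by rw [← hN, hBdef]; exact hX2) e hed
    rw [← hN, hde, ← hBdef] at b2
    calc (e : ℝ) * ‖∑' I : Ideal R, AA χ r (t r) I * hh V m g X S I -
          (V (1 / X) : ℂ)‖ ≤
          e * (CV * (C1 * C2 * (B ^ 2 / Real.sqrt X)) +
            CV * C1 * tailI χ r B (B * (2 * X)) η) := by
          gcongr
      _ = CV * (C1 * C2 * (e * (B ^ 2 / Real.sqrt X))) +
            CV * C1 * (e * tailI χ r B (B * (2 * X)) η) := by ring
      _ ≤ CV * (C1 * C2 * (d * (B ^ 2 / Real.sqrt X))) + CV * C1 * (C0 * d * N ^ (-δ0)) := by gcongr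
  have hsplit : ∑ r ∈ RR, ((ArithmeticFunction.moebius r : ℤ) : ℂ) *
        (((d / r : ℕ) : ℂ) * P r) -
      ∑ r ∈ RR, ((ArithmeticFunction.moebius r : ℤ) : ℂ) * ((d / r : ℕ) : ℂ) =
      ∑ r ∈ RR, ((ArithmeticFunction.moebius r : ℤ) : ℂ) *
        (((d / r : ℕ) : ℂ) * (P r - (V (1 / X) : ℂ))) +
      ((V (1 / X) : ℂ) - 1) * ((Eb d M).card : ℂ) := by
    rw [hEm, mul_sum, ← sum_add_distrib, ← sum_sub_distrib]
    refine sum_congr rfl (fun e _ => ?_)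
    ring
  rw [hsplit]
  have hE1 : ‖(V (1 / X) : ℂ) - 1‖ ≤ CV * Real.sqrt (1 / X) := by
    have g2 : (V (1 / X) : ℂ) - 1 = ((V (1 / X) - 1 : ℝ) : ℂ) := by push_cast; rfl
    rw [g2, Complex.norm_real, Real.norm_eq_abs, abs_sub_comm]
    exact hV.one _ (by positivity)
  have hτ : (RR.card : ℝ) ≤ Cb * C2 ^ ρ * N ^ ρ := by
    have g0 : (RR.card : ℝ) ≤ (d.divisors.card : ℝ) := by
      exact_mod_cast hRcard
    refine g0.trans ((hdivb d hdpos).trans ?_)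
    rw [mul_assoc, ← Real.mul_rpow hC2pos.le hNpos.le]
    gcongr
  have hmain : ‖∑ r ∈ RR, ((ArithmeticFunction.moebius r : ℤ) : ℂ) *
        (((d / r : ℕ) : ℂ) * (P r - (V (1 / X) : ℂ)))‖ ≤
      RR.card * (CV * (C1 * C2 * (d * (B ^ 2 / Real.sqrt X))) + CV * C1 * (C0 * d * N ^ (-δ0))) := by
    refine (norm_sum_le _ _).trans ?_
    rw [← nsmul_eq_mul]
    refine sum_le_card_nsmul _ _ _ fun r hr => ?_
    rw [norm_mul, norm_mul, Complex.norm_natCast, Complex.norm_intCast]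
    have g1 : |((ArithmeticFunction.moebius r : ℤ) : ℝ)| ≤ 1 := by
      have := ArithmeticFunction.abs_moebius_le_one (n := r)
      exact_mod_cast this
    refine (mul_le_of_le_one_left ?_ g1).trans (hT r hr)
    positivity
  -- numerical estimates
  have hsX : N ^ (1 / 6 : ℝ) ≤ Real.sqrt X := by
    apply Real.le_sqrt_of_sq_le
    rw [← Real.rpow_natCast, ← Real.rpow_mul hNpos.le]
    norm_num
    exact hX1
  have hsX0 : 0 < N ^ (1 / 6 : ℝ) := Real.rpow_pos_of_pos hNpos _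
  have hn1 : B ^ 2 / Real.sqrt X ≤ N ^ (-(2 * ρ)) := by
    calc B ^ 2 / Real.sqrt X ≤ B ^ 2 / N ^ (1 / 6 : ℝ) := by gcongr
      _ = N ^ (ε - 1 / 6) := by
          rw [hBdef, ← Real.rpow_natCast, ← Real.rpow_mul hNpos.le, ← Real.rpow_sub hNpos]
          congr 1
          push_cast
          ring
      _ ≤ N ^ (-(2 * ρ)) := Real.rpow_le_rpow_of_exponent_le hN1 (by linarith)
  have hn2 : N ^ (-δ0) ≤ N ^ (-(2 * ρ)) :=
    Real.rpow_le_rpow_of_exponent_le hN1 (by linarith)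
  have hn3 : Real.sqrt (1 / X) ≤ N ^ (-ρ) := by
    rw [Real.sqrt_div zero_le_one, Real.sqrt_one]
    calc 1 / Real.sqrt X ≤ 1 / N ^ (1 / 6 : ℝ) := by gcongr
      _ = N ^ (-(1 / 6) : ℝ) := by rw [Real.rpow_neg hNpos.le, one_div]
      _ ≤ N ^ (-ρ) := Real.rpow_le_rpow_of_exponent_le hN1 (by linarith)
  have hn4 : N ^ ρ * N ^ (-(2 * ρ)) = N ^ (-ρ) := by
    rw [← Real.rpow_add hNpos]
    congr 1
    ring
  have hQ : 0 < N ^ (-ρ) := by positivity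
  have hC2ρ : 0 < C2 ^ ρ := by positivity
  calc _ ≤ RR.card * (CV * (C1 * C2 * (d * (B ^ 2 / Real.sqrt X))) + CV * C1 * (C0 * d * N ^ (-δ0))) +
        CV * Real.sqrt (1 / X) * ((Eb d M).card : ℝ) := by
        refine (norm_add_le _ _).trans (add_le_add hmain ?_)
        rw [norm_mul, Complex.norm_natCast]
        gcongr
    _ ≤ (Cb * C2 ^ ρ * N ^ ρ) * (CV * (C1 * C2 * (d * N ^ (-(2 * ρ)))) +
          CV * C1 * (C0 * d * N ^ (-(2 * ρ)))) + CV * (N ^ (-ρ)) * d := by gcongr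
    _ = Cb * C2 ^ ρ * (CV * (C1 * C2) + CV * C1 * C0) * d * (N ^ ρ * N ^ (-(2 * ρ))) +
          CV * N ^ (-ρ) * d := by ring
    _ = (Cb * C2 ^ ρ * (CV * (C1 * C2) + CV * C1 * C0) + CV) * d * N ^ (-ρ) := by
          rw [hn4]; ring

end Pool.Agent.Y683
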