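import Pool.Agent.W768.HK.Finn0
import Pool.Agent.Y683.Mainp
import Pool.Agent.Y683.Dualp

/-!
# Nonvanishing for some exponent, uniformly
-/

set_option autoImplicit false

open Complex Filter Topology Set

namespace Pool.Agent.Y683

open Pool.Agent.W192.HK
open Pool.Agent.W192.CY (S_DIV)
open Pool.Agent.W768.HK.Finn0 (ev_small)

/-- FINB -/
def FINB : Prop := ∀ CV : ℝ, ∀ (R : Subring ℂ) (ω : ℂ), QR R ω → ∀ M : ℕ, 1 ≤ M →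
  ∀ ε : ℝ, 0 < ε → ∃ q0 : ℝ, ∀ V : ℝ → ℝ, VH V CV → ∀ g : Ideal R → ℂ, Gd R g →
  ∀ (c : Ideal R) (χ : Ideal R → ℂ), RC c χ → q0 ≤ nm c → ∀ d : ℕ, Od χ d →
  (nm c) ^ (2 / 3 + ε) ≤ d →
  ∀ (hh : Ideal R) (T : Finset R), hh ≠ ⊥ → IsCoprime hh c → Rp c hh T →
  ∀ k : R → ℂ, (∀ x : R, ‖k x‖ ≤ (nm c) ^ (-1 / 2 : ℝ)) →
  ∀ P : ℝ, 0 < P → 2 * P ≤ (d : ℝ) ^ 4 * (nm c) ^ (-1 - 4 * ε) →
  ∀ L : ℕ → ℂ,
    (∀ a ∈ Eb d M, ∀ X Y : ℝ, 0 < X → 0 < Y → X * Y = P →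
      L a = smo V g X (pw χ a) + (∑ x ∈ T, pw χ a (sp x) * k x / pw χ a hh) *
        (starRingEnd ℂ) (smo V g Y (pw χ a))) →
    ∃ a ∈ Eb d M, L a ≠ 0

theorem finb0 (h0 : S_DIV) (h1 : H_BASIC) (h2 : H_CNT) (h3 : H_MU)
    (h5 : MAINB) (h6 : DUALB) (CV : ℝ) (R : Subring ℂ) (ω : ℂ) (hR : QR R ω) (M : ℕ)
    (hM : 1 ≤ M) (ε : ℝ) (hε : 0 < ε) (hsmall : ε < 1 / 12) :
    ∃ q0 : ℝ, ∀ V : ℝ → ℝ, VH V CV → ∀ g : Ideal R → ℂ, Gd R g →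
  ∀ (c : Ideal R) (χ : Ideal R → ℂ), RC c χ → q0 ≤ nm c → ∀ d : ℕ, Od χ d →
  (nm c) ^ (2 / 3 + ε) ≤ d →
  ∀ (hh : Ideal R) (T : Finset R), hh ≠ ⊥ → IsCoprime hh c → Rp c hh T →
  ∀ k : R → ℂ, (∀ x : R, ‖k x‖ ≤ (nm c) ^ (-1 / 2 : ℝ)) →
  ∀ P : ℝ, 0 < P → 2 * P ≤ (d : ℝ) ^ 4 * (nm c) ^ (-1 - 4 * ε) →
  ∀ L : ℕ → ℂ,
    (∀ a ∈ Eb d M, ∀ X Y : ℝ, 0 < X → 0 < Y → X * Y = P →
      L a = smo V g X (pw χ a) + (∑ x ∈ T, pw χ a (sp x) * k x / pw χ a hh) *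
        (starRingEnd ℂ) (smo V g Y (pw χ a))) →
    ∃ a ∈ Eb d M, L a ≠ 0 := by
  obtain ⟨m, hm⟩ := h3 R ω hR
  obtain ⟨δ1, D1, hδ1, hD1, H1⟩ := h5 CV R ω hR m hm M hM ε hε hsmall
  obtain ⟨δ2, D2, hδ2, hD2, H2⟩ := h6 CV R ω hR m hm M hM ε hε hsmall
  obtain ⟨hfin, -, C3, hC3, hcnt, hord⟩ := h2 R ω hR
  set δ := min δ1 δ2 with hδdef
  have hδ : 0 < δ := lt_min hδ1 hδ2
  obtain ⟨C4, hC4, -, H4⟩ := h0 (δ / 2) (by linarith)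
  set C5 := C4 * C3 ^ (δ / 2) with hC5def
  have hC5 : 0 < C5 := mul_pos hC4 (Real.rpow_pos_of_pos hC3 _)
  obtain ⟨q3, H5⟩ := ev_small ((D1 + D2) * C5 * M) 0 (δ / 2) (ε / 2) (by linarith)
    (by linarith)
  refine ⟨max q3 2, ?_⟩
  intro V hV g hg c χ hχ hq0 d hd hle hh T hhne hcop hT k hk P hP hPd L hL
  have hNd : (d : ℝ) ≤ C3 * nm c := (hord c χ hχ d hd).1
  set Q := nm c with hQ
  have hq2 : (2 : ℝ) ≤ Q := le_trans (le_max_right _ _) hq0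
  have hqpos : (0 : ℝ) < Q := by linarith
  have hq1 : (1 : ℝ) ≤ Q := by linarith
  have hqc : q3 ≤ Q := le_trans (le_max_left _ _) hq0
  have hdpos : (0 : ℝ) < d := by exact_mod_cast hd.pos
  by_contra hcon
  push Not at hcon
  -- sizes
  set B := Q ^ (ε / 2) with hB
  have hBpos : 0 < B := Real.rpow_pos_of_pos hqpos _
  set X : ℝ := (d : ℝ) ^ 2 * Q ^ (-(3 * ε / 2)) / 2 with hX
  have hXpos : 0 < X := by positivity
  set Y : ℝ := P / X with hY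
  have hYpos : 0 < Y := div_pos hP hXpos
  have hXY : X * Y = P := by rw [hY]; field_simp
  have hX1 : Q ^ (1 / 3 : ℝ) ≤ X := by
    have e1 : Q ^ (4 / 3 : ℝ) ≤ (d : ℝ) ^ 2 * Q ^ (-(3 * ε / 2)) := by
      calc Q ^ (4 / 3 : ℝ) ≤ Q ^ ((2 / 3 + ε) * 2 + -(3 * ε / 2)) :=
            Real.rpow_le_rpow_of_exponent_le hq1 (by linarith)
        _ = (Q ^ (2 / 3 + ε)) ^ 2 * Q ^ (-(3 * ε / 2)) := by
            rw [Real.rpow_add hqpos, Real.rpow_mul hqpos.le, Real.rpow_two]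
        _ ≤ _ := by gcongr
    have e2 : Q ^ (4 / 3 : ℝ) = Q * Q ^ (1 / 3 : ℝ) := by
      rw [show (4 / 3 : ℝ) = 1 + 1 / 3 by norm_num, Real.rpow_add hqpos, Real.rpow_one]
    have e3 : 0 < Q ^ (1 / 3 : ℝ) := Real.rpow_pos_of_pos hqpos _
    rw [hX]
    nlinarith
  have hX2 : B * (2 * X) ≤ (d : ℝ) ^ 2 * Q ^ (-ε) := by
    apply le_of_eq
    calc B * (2 * X) = (d : ℝ) ^ 2 * (Q ^ (ε / 2) * Q ^ (-(3 * ε / 2))) := by
          rw [hX, hB]; ring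
      _ = _ := by
          rw [← Real.rpow_add hqpos]
          congr 2
          ring
  have hY1 : Y ≤ (d : ℝ) ^ 2 * Q ^ (-1 - 2 * ε) := by
    rw [hY, div_le_iff₀ hXpos]
    calc P ≤ (d : ℝ) ^ 4 * Q ^ (-1 - 4 * ε) / 2 := by linarith
      _ ≤ (d : ℝ) ^ 4 * Q ^ (-1 - 2 * ε + -(3 * ε / 2)) / 2 := by
          have : Q ^ (-1 - 4 * ε) ≤ Q ^ (-1 - 2 * ε + -(3 * ε / 2)) :=
            Real.rpow_le_rpow_of_exponent_le hq1 (by linarith)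
          gcongr
      _ = (d : ℝ) ^ 2 * Q ^ (-1 - 2 * ε) * X := by
          rw [hX, Real.rpow_add hqpos]
          ring
  -- the two parts
  have hMn := H1 V hV g hg c χ hχ d hd hle X hX1 hX2
  have hDn := H2 V hV g hg c χ hχ d hd hh T hhne hcop hT k hk Y hYpos hY1
  rw [← hQ, ← hB] at hMn hDn
  have hL' : ∀ a ∈ Eb d M, L a = smo V g X (pw χ a) +
      (∑ x ∈ T, pw χ a (sp x) * k x / pw χ a hh) * (starRingEnd ℂ) (smo V g Y (pw χ a)) :=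
    fun a ha => hL a ha X Y hXpos hYpos hXY
  set S := ∑ a ∈ Eb d M, mol m g B (pw χ a) * smo V g X (pw χ a) with hS
  set D := ∑ a ∈ Eb d M, mol m g B (pw χ a) *
      (∑ x ∈ T, pw χ a (sp x) * k x / pw χ a hh) *
      (starRingEnd ℂ) (smo V g Y (pw χ a)) with hD
  have hTot : S + D = 0 := by
    have h7 : ∑ a ∈ Eb d M, mol m g B (pw χ a) * L a = S + D := by
      rw [hS, hD, ← Finset.sum_add_distrib]
      refine Finset.sum_congr rfl fun a ha => ?_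
      rw [hL' a ha]
      ring
    rw [← h7]
    exact Finset.sum_eq_zero fun a ha => by rw [hcon a ha, mul_zero]
  obtain ⟨K, hK⟩ : ∃ K : ℕ, K = (Eb d M).card := ⟨_, rfl⟩
  have hcard0 : Nat.totient d ≤ K * M := by
    obtain ⟨t, ht, -⟩ := mobb d M hd.pos hM
    rw [hK]
    exact ht
  have hφpos : (0 : ℝ) < Nat.totient d := by
    exact_mod_cast Nat.totient_pos.2 hd.pos
  have hKφ : (Nat.totient d : ℝ) ≤ K * M := by exact_mod_cast hcard0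
  have hKpos : (0 : ℝ) < K := by
    rcases Nat.eq_zero_or_pos K with h | h
    · rw [h, Nat.cast_zero, zero_mul] at hKφ
      linarith
    · exact_mod_cast h
  rw [← hK] at hMn
  have hlow : (K : ℝ) ≤ D1 * d * Q ^ (-δ1) + D2 * d * Q ^ (-δ2) := by
    have e1 : ((K : ℕ) : ℂ) = (S + D) - (S - (K : ℂ)) - D := by
      ring
    calc (K : ℝ) = ‖((K : ℕ) : ℂ)‖ := by simp
      _ = ‖(S + D) - (S - (K : ℂ)) - D‖ := by rw [← e1]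
      _ ≤ ‖(S + D) - (S - (K : ℂ))‖ + ‖D‖ := norm_sub_le _ _
      _ = ‖S - (K : ℂ)‖ + ‖D‖ := by rw [hTot, zero_sub, norm_neg]
      _ ≤ _ := by
          gcongr
  have hq1' : Q ^ (-δ1) ≤ Q ^ (-δ) :=
    Real.rpow_le_rpow_of_exponent_le hq1 (neg_le_neg (min_le_left _ _))
  have hq2' : Q ^ (-δ2) ≤ Q ^ (-δ) :=
    Real.rpow_le_rpow_of_exponent_le hq1 (neg_le_neg (min_le_right _ _))
  have hφ := H4 d hd.pos
  have hdφ : (d : ℝ) * Q ^ (-δ) ≤ C5 * Nat.totient d * Q ^ (-(δ / 2)) := by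
    have e1 : (d : ℝ) = (d : ℝ) ^ (1 - δ / 2) * (d : ℝ) ^ (δ / 2) := by
      rw [← Real.rpow_add hdpos]
      simp
    have e2 : (d : ℝ) ^ (δ / 2) ≤ C3 ^ (δ / 2) * Q ^ (δ / 2) := by
      rw [← Real.mul_rpow hC3.le hqpos.le]
      exact Real.rpow_le_rpow hdpos.le hNd (by linarith)
    calc (d : ℝ) * Q ^ (-δ)
        = (d : ℝ) ^ (1 - δ / 2) * (d : ℝ) ^ (δ / 2) * Q ^ (-δ) := by rw [← e1]
      _ ≤ (C4 * Nat.totient d) * (C3 ^ (δ / 2) * Q ^ (δ / 2)) * Q ^ (-δ) := by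
          gcongr
      _ = C5 * Nat.totient d * (Q ^ (δ / 2) * Q ^ (-δ)) := by rw [hC5def]; ring
      _ = C5 * Nat.totient d * Q ^ (-(δ / 2)) := by
          rw [← Real.rpow_add hqpos]
          congr 2
          ring
  have hfin' := H5 Q hqc
  have key : (K : ℝ) ≤ K *
      ((D1 + D2) * C5 * M * Q ^ (-(δ / 2)) + 0 * Q ^ (-(ε / 2))) := by
    calc (K : ℝ) ≤ D1 * d * Q ^ (-δ1) + D2 * d * Q ^ (-δ2) := hlow
      _ ≤ D1 * d * Q ^ (-δ) + D2 * d * Q ^ (-δ) := by gcongr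
      _ = (D1 + D2) * (d * Q ^ (-δ)) := by
          ring
      _ ≤ (D1 + D2) * (C5 * Nat.totient d * Q ^ (-(δ / 2))) := by gcongr
      _ ≤ (D1 + D2) * (C5 * (K * M) * Q ^ (-(δ / 2))) := by gcongr
      _ = _ := by ring
  have : (K : ℝ) * ((D1 + D2) * C5 * M * Q ^ (-(δ / 2)) +
      0 * Q ^ (-(ε / 2))) < K * 1 := by
    gcongr
  linarith

theorem finb (h0 : S_DIV) (h1 : H_BASIC) (h2 : H_CNT) (h3 : H_MU)
    (h5 : MAINB) (h6 : DUALB) : FINB := by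
  intro CV R ω hR M hM ε hε
  obtain ⟨q0, H⟩ := finb0 h0 h1 h2 h3 h5 h6 CV R ω hR M hM
    (min ε (1 / 24)) (lt_min hε (by norm_num)) (lt_of_le_of_lt (min_le_right _ _) (by norm_num))
  refine ⟨q0, fun V hV g hg c χ hχ hqc d hd hle hh T hhne hcop hT k hk P hP hPd L hL => ?_⟩
  have hN1 : (1 : ℝ) ≤ nm c := (h1 R ω hR).2.2.1 c hχ.ne
  have hmin := min_le_left ε (1 / 24 : ℝ)
  refine H V hV g hg c χ hχ hqc d hd
    ((Real.rpow_le_rpow_of_exponent_le hN1 (by linarith)).trans hle)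
    hh T hhne hcop hT k hk P hP (hPd.trans ?_) L hL
  have : (nm c) ^ (-1 - 4 * ε) ≤ (nm c) ^ (-1 - 4 * min ε (1 / 24)) :=
    Real.rpow_le_rpow_of_exponent_le hN1 (by linarith)
  gcongr

end Pool.Agent.Y683
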