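import Pool.Agent.TH936.HK.Wt

/-!
# The weight functions `x ↦ Γ(m, 4 m x) / Γ(m)`, with constants independent of `m`
-/

set_option autoImplicit false

open Complex Filter Topology Set

namespace Pool.Agent.Y683

open Pool.Agent.W192.HK
open Pool.Agent.W192.CY (Vk)
open Pool.Agent.TH936.HK (vk_nonneg vk_le vk_le_one hasDerivAt_vk)

lemma vk_succ (m : ℕ) (x : ℝ) :
    Vk (m + 1) x = Vk m x + Real.exp (-x) * (x ^ m / (m.factorial : ℝ)) := by
  unfold Vk
  rw [Finset.sum_range_succ, mul_add]

lemma vk_zero_right (m : ℕ) (hm : 1 ≤ m) : Vk m 0 = 1 := by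
  obtain ⟨k, rfl⟩ : ∃ k, m = k + 1 := ⟨m - 1, by omega⟩
  unfold Vk
  rw [Finset.sum_range_succ']
  simp

/-- Markov's inequality for the Poisson distribution -/
lemma one_sub_vk (m : ℕ) (hm : 1 ≤ m) {y : ℝ} (hy : 0 ≤ y) : m * (1 - Vk m y) ≤ y := by
  rcases Nat.lt_or_ge 1 m with h1 | h1
  · obtain ⟨k, rfl⟩ : ∃ k, m = k + 1 + 1 := ⟨m - 2, by omega⟩
    set D : ℝ → ℝ := fun y => y * (1 - Vk (k + 1) y) - ((k + 1 + 1 : ℕ) : ℝ) * (1 - Vk (k + 1 + 1) y)
      with hD
    have hd : ∀ x : ℝ, HasDerivAt D (1 - Vk (k + 1 + 1) x) x := by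
      intro x
      have e1 := hasDerivAt_vk (k + 1) (by omega) x
      have e2 := hasDerivAt_vk (k + 1 + 1) (by omega) x
      have e3 := ((hasDerivAt_id x).mul (e1.const_sub 1)).sub
        ((e2.const_sub 1).const_mul ((k + 1 + 1 : ℕ) : ℝ))
      refine e3.congr_deriv ?_
      rw [vk_succ (k + 1) x]
      simp only [Nat.add_sub_cancel, id_eq]
      rw [Nat.factorial_succ k]
      have hk : ((k.factorial : ℕ) : ℝ) ≠ 0 := by positivity
      have hk1 : ((k : ℝ) + 1) ≠ 0 := by positivity
      push_cast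
      field_simp
      ring
    have hmono : MonotoneOn D (Set.Ici 0) := by
      refine monotoneOn_of_deriv_nonneg (convex_Ici 0)
        (fun x _ => (hd x).continuousAt.continuousWithinAt)
        (fun x _ => (hd x).differentiableAt.differentiableWithinAt) ?_
      intro x hx
      rw [interior_Ici] at hx
      rw [(hd x).deriv]
      have := vk_le_one (k + 1 + 1) (le_of_lt hx)
      linarith
    have h2 := hmono (Set.mem_Ici.2 le_rfl) (Set.mem_Ici.2 hy) hy
    have h3 : D 0 = 0 := by
      simp only [hD]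
      rw [vk_zero_right _ (by omega), vk_zero_right _ (by omega)]
      ring
    rw [h3] at h2
    simp only [hD] at h2
    have h4 := vk_nonneg (k + 1) hy
    have h5 : y * (1 - Vk (k + 1) y) ≤ y * 1 := mul_le_mul_of_nonneg_left (by linarith) hy
    linarith
  · have hm1 : m = 1 := by omega
    subst hm1
    unfold Vk
    simp
    have := Real.add_one_le_exp (-y)
    linarith

/-- the weight function, rescaled -/
noncomputable def Um (m : ℕ) (x : ℝ) : ℝ := Vk m (4 * m * x)

theorem vh_um (m : ℕ) (hm : 1 ≤ m) : VH (Um m) 2 := by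
  have hm1 : (1 : ℝ) ≤ m := by exact_mod_cast hm
  refine ⟨by norm_num, fun x hx => ?_, fun x hx => ?_⟩
  · have h0 : 0 ≤ 4 * m * x := by positivity
    unfold Um
    rw [abs_of_nonneg (vk_nonneg m h0)]
    rcases le_total 1 x with h1 | h1
    · have h2 : (2 : ℝ) ^ m ≤ Real.exp m := by
        have h3 : (2 : ℝ) ≤ Real.exp 1 := by
          have := Real.add_one_le_exp (1 : ℝ)
          linarith
        calc (2 : ℝ) ^ m ≤ (Real.exp 1) ^ m := pow_le_pow_left₀ (by norm_num) h3 m
          _ = Real.exp m := by rw [← Real.exp_nat_mul, mul_one]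
      calc Vk m (4 * m * x) ≤ 2 ^ m * Real.exp (-(4 * m * x / 2)) := vk_le m h0
        _ ≤ Real.exp m * Real.exp (-(4 * m * x / 2)) := by gcongr
        _ = Real.exp (m + -(4 * m * x / 2)) := by rw [Real.exp_add]
        _ ≤ Real.exp (-(x / 2)) := by
            apply Real.exp_le_exp.2
            nlinarith
        _ ≤ 2 * Real.exp (-(x / 2)) := by
            have := Real.exp_pos (-(x / 2))
            linarith
    · have h2 := vk_le_one m h0
      have h3 : (1 : ℝ) / 2 ≤ Real.exp (-(x / 2)) := by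
        have := Real.add_one_le_exp (-(x / 2))
        linarith
      linarith
  · have h0 : 0 ≤ 4 * m * x := by positivity
    have h1 := vk_le_one m h0
    have h2 := vk_nonneg m h0
    have h3 := one_sub_vk m hm h0
    unfold Um
    rw [abs_of_nonneg (by linarith)]
    have h4 : 1 - Vk m (4 * m * x) ≤ 4 * x := by
      have h5 : m * (1 - Vk m (4 * m * x)) ≤ m * (4 * x) := by linarith
      exact le_of_mul_le_mul_left h5 (by linarith)
    have h6 := Real.sqrt_nonneg x
    have h7 := Real.sq_sqrt hx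
    rcases le_total (Real.sqrt x) (1 / 2) with h8 | h8
    · nlinarith
    · linarith

end Pool.Agent.Y683
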