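import Pool.Agent.Y683.Alg
import Pool.Agent.Y683.Finn
import Pool.Agent.Y683.Wt
import Pool.Agent.TH936.HK.AsmK

/-!
# Central values of Hecke characters with finite part of large order
-/

set_option autoImplicit false

open Complex Filter Topology Set

namespace Pool.Agent.Y683

open Pool.Agent.W192.CY (VW Vk K_VK)
open Pool.Agent.W192.CM (ez nu)
open Pool.Agent.W192.HK Pool.Agent.TH936.CM Pool.Agent.TH936.CW

variable {R : Subring ℂ} {ω : ℂ}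

lemma ev_le (C δ : ℝ) (hδ : 0 < δ) : ∃ x0 : ℝ, ∀ x : ℝ, x0 ≤ x → C ≤ x ^ δ := by
  have h := (tendsto_rpow_atTop hδ).eventually_ge_atTop C
  exact Filter.eventually_atTop.1 h

theorem nonvan (hbasic : H_BASIC) (hcls : H_CLS) (hcnt : H_CNT) (hfpr : H_FPR)
    (hfp : H_FP) (hdec : H_DEC) (hafe : H_AFE) (hfinb : FINB)
    (hR : QR R ω) (ε : ℝ) (hε : 0 < ε) :
    ∃ N0 : ℝ, ∀ m : ℕ, 1 ≤ m → ∀ (q : Ideal R) (θ : Ideal R → ℂ), HC (2 * m - 1) q θ →
      N0 ≤ nm q → ∀ d : ℕ,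
      (∀ e : ℕ, 0 < e → (∀ α : R, IsCoprime (sp α) q → fp (2 * m - 1) θ α ^ e = 1) → d ≤ e) →
      (nm q) ^ (2 / 3 + ε) ≤ d → m * (nm q) ^ (1 + ε) ≤ (d : ℝ) ^ 2 →
      ∃ F : ℂ → ℂ, Differentiable ℂ F ∧
        (∀ z : ℂ, (m : ℝ) + 1 / 2 < z.re →
          HasSum (fun I : Ideal R => θ I * (nm I : ℂ) ^ (-z)) (F z)) ∧ F m ≠ 0 := by
  classical
  have hded := hR.ded
  obtain ⟨L, Ω, hL, ha2, ha3⟩ := exists_alg_lattice hR
  obtain ⟨p₀, q₀, hpq⟩ := exists_pq L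
  obtain ⟨S1, hS1, hσ1⟩ := exists_lin2 hR hL ha2 ha3 hpq
  obtain ⟨M, hM, hchi⟩ := exists_chi hbasic hcls hfpr hR S1 hS1 (fun σ hσ => (hσ1 σ hσ).1)
  obtain ⟨q1, hq1⟩ := hfinb 2 R ω hR M hM (ε / 4) (by linarith)
  obtain ⟨q2, hq2⟩ := ev_le M (3 * ε / 4) (by linarith)
  obtain ⟨q3, hq3⟩ := ev_le (32 * ω.im ^ 2 / Real.pi ^ 2 * M ^ 4) ε hε
  obtain ⟨hfin, hbot, hge1, hmul, hsp, hdvd, htop, hnat, hunits⟩ := hbasic R ω hR
  obtain ⟨h, hh1, -, hcls'⟩ := hcls R ω hR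
  refine ⟨max q1 (max q2 q3), fun m hm q θ hθ hN d hdl hd1 hd2 => ?_⟩
  have hN1 : q1 ≤ nm q := le_trans (le_max_left _ _) hN
  have hN2 : q2 ≤ nm q := le_trans (le_trans (le_max_left _ _) (le_max_right _ _)) hN
  have hN3 : q3 ≤ nm q := le_trans (le_trans (le_max_right _ _) (le_max_right _ _)) hN
  have hq0 : (1 : ℝ) ≤ nm q := hge1 q hθ.ne
  have hqpos : (0 : ℝ) < nm q := by linarith
  have hqt : q ≠ ⊤ := hθ.ne_top hm
  have hm1 : (1 : ℝ) ≤ m := by exact_mod_cast hm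
  have hmpos : (0 : ℝ) < m := by linarith
  have hMpos : (0 : ℝ) < M := by exact_mod_cast hM
  obtain ⟨χ, d', hrc, hOd, hdd, hσ⟩ := hchi (2 * m - 1) q θ hθ hqt d hdl
  obtain ⟨s, hh, μ, T, -, hS⟩ := hcls' q hθ.ne
  have hdd' : (d : ℝ) ≤ M * d' := by exact_mod_cast hdd
  -- the size of the order
  have hd'1 : (nm q) ^ (2 / 3 + ε / 4) ≤ d' := by
    have e1 : (M : ℝ) * (nm q) ^ (2 / 3 + ε / 4) ≤ (nm q) ^ (2 / 3 + ε) := by
      calc (M : ℝ) * (nm q) ^ (2 / 3 + ε / 4)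
          ≤ (nm q) ^ (3 * ε / 4) * (nm q) ^ (2 / 3 + ε / 4) := by
            gcongr
            exact hq2 _ hN2
        _ = (nm q) ^ (2 / 3 + ε) := by
            rw [← Real.rpow_add hqpos]
            congr 1
            ring
    have e2 : (M : ℝ) * (nm q) ^ (2 / 3 + ε / 4) ≤ M * d' := e1.trans (hd1.trans hdd')
    exact le_of_mul_le_mul_left e2 hMpos
  set P : ℝ := 16 * (m : ℝ) ^ 2 * (ω.im ^ 2 * nm q / Real.pi ^ 2) with hP
  have hωpos := hR.im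
  have hπ := Real.pi_pos
  have hPpos : 0 < P := by positivity
  have hPd : 2 * P ≤ (d' : ℝ) ^ 4 * (nm q) ^ (-1 - 4 * (ε / 4)) := by
    have e1 : (m : ℝ) ^ 2 * (nm q) ^ (2 + 2 * ε) ≤ (M : ℝ) ^ 4 * (d' : ℝ) ^ 4 := by
      calc (m : ℝ) ^ 2 * (nm q) ^ (2 + 2 * ε) = (m * (nm q) ^ (1 + ε)) ^ 2 := by
            rw [mul_pow, ← Real.rpow_natCast ((nm q) ^ (1 + ε)) 2, ← Real.rpow_mul hqpos.le]
            congr 2
            push_cast
            ring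
        _ ≤ ((d : ℝ) ^ 2) ^ 2 := by gcongr
        _ = (d : ℝ) ^ 4 := by ring
        _ ≤ (M * d') ^ 4 := by gcongr
        _ = _ := by ring
    have e2 : 2 * P * (nm q) ^ (1 + ε) * M ^ 4 ≤ (m : ℝ) ^ 2 * (nm q) ^ (2 + 2 * ε) := by
      have h3 := hq3 _ hN3
      calc 2 * P * (nm q) ^ (1 + ε) * M ^ 4
          = (32 * ω.im ^ 2 / Real.pi ^ 2 * M ^ 4) * ((m : ℝ) ^ 2 * (nm q * (nm q) ^ (1 + ε))) := by
            rw [hP]
            ring
        _ ≤ (nm q) ^ ε * ((m : ℝ) ^ 2 * (nm q * (nm q) ^ (1 + ε))) := by gcongr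
        _ = (m : ℝ) ^ 2 * ((nm q) ^ ε * ((nm q) ^ (1 : ℝ) * (nm q) ^ (1 + ε))) := by
            rw [Real.rpow_one]
            ring
        _ = (m : ℝ) ^ 2 * (nm q) ^ (2 + 2 * ε) := by
            rw [← Real.rpow_add hqpos, ← Real.rpow_add hqpos]
            congr 2
            ring
    have e3 : 2 * P * (nm q) ^ (1 + ε) * M ^ 4 ≤ (d' : ℝ) ^ 4 * M ^ 4 :=
      (e2.trans e1).trans (le_of_eq (by ring))
    have e4 : 2 * P * (nm q) ^ (1 + ε) ≤ (d' : ℝ) ^ 4 :=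
      le_of_mul_le_mul_right e3 (by positivity)
    have e5 : (nm q) ^ (-1 - 4 * (ε / 4)) = ((nm q) ^ (1 + ε))⁻¹ := by
      rw [← Real.rpow_neg hqpos.le]
      congr 1
      ring
    have e6 : 0 < (nm q) ^ (1 + ε) := Real.rpow_pos_of_pos hqpos _
    rw [e5, ← div_eq_mul_inv, le_div_iff₀ e6]
    exact e4
  -- the conjugates
  have hHC : ∀ b ∈ Eb d' M, HC (2 * m - 1) q (fun I => θ I * pw χ b I) := by
    intro b hb
    obtain ⟨σ, hσS, hσθ⟩ := hσ b hb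
    exact hc_aut hθ σ (hσ1 σ hσS).1 hσθ
  have hgd := gd_of hR hbasic hfp hm hθ
  set g : Ideal R → ℂ := fun I => θ I / (nm I : ℂ) ^ (m - 1) with hg
  set k : R → ℂ := fun x => fp (2 * m - 1) θ x * ez ω ((x : ℂ) / (μ : ℂ)) *
    (μ : ℂ) ^ (2 * m - 1) / ((nm q : ℂ) ^ m * θ hh) with hk
  have hkb : ∀ x : R, ‖k x‖ ≤ (nm q) ^ (-1 / 2 : ℝ) := by
    intro x
    have hhpos : 0 < nm hh := lt_of_lt_of_le one_pos (hge1 _ hS.ne)
    have hfpx : ‖fp (2 * m - 1) θ x‖ ≤ 1 := by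
      obtain ⟨-, -, hz, hn, -⟩ := hfp R ω hR _ q θ hθ hqt
      by_cases hx : IsCoprime (sp x) q
      · exact (hn x hx).le
      · rw [(hz x).2 hx, norm_zero]
        exact zero_le_one
    have hψh : ‖θ hh‖ ^ 2 = nm hh ^ (2 * m - 1) := hθ.sq hR hfp hm hS.ne hS.cop
    have hμ : ‖(μ : ℂ)‖ ^ 2 = nm q * nm hh := by
      rw [← hmul, hS.prn, hsp, Complex.normSq_eq_norm_sq]
    have hsq : ‖k x‖ ^ 2 ≤ (nm q)⁻¹ := by
      simp only [hk, norm_div, norm_mul, ez_norm, mul_one, norm_pow, Complex.norm_real,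
        Real.norm_eq_abs, abs_of_pos hqpos]
      rw [div_pow, mul_pow, mul_pow, hψh, ← pow_mul, mul_comm (2 * m - 1) 2, pow_mul, hμ, mul_pow]
      have e2 : (nm q ^ m) ^ 2 = nm q ^ (2 * m - 1) * nm q := by
        rw [← pow_mul, ← pow_succ]
        congr 1
        omega
      rw [e2]
      have hA : 0 < nm q ^ (2 * m - 1) := by positivity
      have hB : 0 < nm hh ^ (2 * m - 1) := by positivity
      rw [div_le_iff₀ (by positivity)]
      have h5 : ‖fp (2 * m - 1) θ x‖ ^ 2 ≤ 1 := pow_le_one₀ (norm_nonneg _) hfpx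
      calc ‖fp (2 * m - 1) θ x‖ ^ 2 * (nm q ^ (2 * m - 1) * nm hh ^ (2 * m - 1))
          ≤ 1 * (nm q ^ (2 * m - 1) * nm hh ^ (2 * m - 1)) := by
            gcongr
        _ = _ := by
            field_simp
    have h7 : (nm q) ^ (-1 / 2 : ℝ) = Real.sqrt ((nm q)⁻¹) := by
      rw [Real.sqrt_eq_rpow, ← Real.rpow_neg_one, ← Real.rpow_mul hqpos.le]
      norm_num
    rw [h7]
    exact Real.le_sqrt_of_sq_le hsq
  have hex : ∀ b : ℕ, ∃ F : ℂ → ℂ, b ∈ Eb d' M → (Differentiable ℂ F ∧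
      (∀ z : ℂ, (m : ℝ) + 1 / 2 < z.re →
        HasSum (fun I : Ideal R => θ I * pw χ b I * (nm I : ℂ) ^ (-z)) (F z)) ∧
      (∀ X Y : ℝ, 0 < X → 0 < Y → X * Y = P →
        F m = smo (Um m) g X (pw χ b) + (∑ x ∈ T, pw χ b (sp x) * k x / pw χ b hh) *
          (starRingEnd ℂ) (smo (Um m) g Y (pw χ b)))) := by
    intro b
    by_cases hb : b ∈ Eb d' M
    · obtain ⟨F, h1, h2, h3⟩ := hafe R ω hR m hm q _ (hHC b hb) _ _ _ _ hS
      refine ⟨F, fun _ => ⟨h1, h2, fun X Y hX hY hXY => ?_⟩⟩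
      have hWeq : ∑ x ∈ T, pw χ b (sp x) * k x / pw χ b hh =
          Wc ω m q hh μ T (fun I => θ I * pw χ b I) := by
        unfold Wc gT
        rw [Finset.sum_mul, Finset.sum_div]
        refine Finset.sum_congr rfl fun x _ => ?_
        simp only [hk, fp]
        simp only [div_eq_mul_inv, mul_inv]
        ring
      rw [h3 (X / (4 * m)) (Y / (4 * m)) (by positivity) (by positivity) (by
        rw [div_mul_div_comm, hXY, hP]
        field_simp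
        ring), hWeq]
      have e1 : ∀ I : Ideal R, θ I * pw χ b I / (nm I : ℂ) ^ m = pw χ b I * g I / (nm I : ℂ) := by
        intro I
        rcases eq_or_ne I ⊥ with h0 | h0
        · rw [h0, (hθ.zero ⊥).2 (Or.inl rfl), hgd.zero]
          simp
        · have hp : (nm I : ℂ) ≠ 0 := by
            have := lt_of_lt_of_le one_pos (hge1 I h0)
            exact_mod_cast this.ne'
          simp only [hg]
          rw [mul_div_assoc', div_div, ← pow_succ, show m - 1 + 1 = m by omega, mul_comm]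
      have e2 : ∀ (Z : ℝ) (I : Ideal R), 0 < Z → Vk m (nm I / (Z / (4 * m))) = Um m (nm I / Z) := by
        intro Z I hZ
        unfold Um
        congr 1
        field_simp
      congr 1
      · unfold smo
        refine tsum_congr fun I => ?_
        rw [e1, e2 X I hX]
      · congr 1
        unfold smo
        rw [Complex.conj_tsum]
        refine tsum_congr fun I => ?_
        rw [← e1, e2 Y I hY]
        simp only [map_mul, map_div₀, map_pow, Complex.conj_ofReal]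
    · exact ⟨0, fun h => absurd h hb⟩
  choose Lb hLb using hex
  obtain ⟨b, hb, hb0⟩ := hq1 (Um m) (vh_um m hm) g hgd q χ hrc hN1 d' hOd hd'1 hh T hS.ne hS.cop
    hS.rp k hkb P hPpos hPd (fun b => Lb b m) (fun b hb => (hLb b hb).2.2)
  obtain ⟨F, hF1, hF2, -⟩ := hafe R ω hR m hm q θ hθ _ _ _ _ hS
  refine ⟨F, hF1, hF2, fun hF0 => hb0 ?_⟩
  obtain ⟨σ, hσS, hσθ⟩ := hσ b hb
  obtain ⟨hσR, hσg2, hσg3, hlin, hσp⟩ := hσ1 σ hσS
  obtain ⟨e, rfl⟩ : ∃ e, m = e + 1 := ⟨m - 1, by omega⟩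
  have hJ : q * hh ≠ ⊥ := mul_ne_zero hθ.ne hS.ne
  obtain ⟨n, hn0, hnJ⟩ := exists_nat hbasic hR _ hJ
  have hle1 : q * hh ≤ q := Ideal.mul_le_left
  have hle2 : q * hh ≤ hh := Ideal.mul_le_right
  have hnq : (n : R) ∈ q := hle1 hnJ
  have hnb : ∀ b ∈ s, (n : R) ∈ b := by
    intro b hb
    have h9 : hh ≤ b := Ideal.le_of_dvd (hS.dvd b hb)
    exact h9 (hle2 hnJ)
  have hθe : HC (2 * e + 1) q θ := hθ
  have hθe' : HC (2 * e + 1) q (fun I => θ I * pw χ b I) := hHC b hb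
  exact (equiK_one hbasic hfp hcnt hdec hafe hR hL hpq hS hn0 rfl hnq hnb hσR hσg2 hσg3 hσp hlin
    hθe hθe' hσθ F (Lb b) hF1 (hLb b hb).1 hF2 (hLb b hb).2.1).1 hF0

end Pool.Agent.Y683
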