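import Pool.Agent.TH936.CW.Fin
import Pool.Agent.Y683.Mob

/-!
# Ideal numbers, and the ray class character attached to a Hecke character
-/

set_option autoImplicit false

namespace Pool.Agent.Y683

open Pool.Agent.W192.HK Pool.Agent.TH936.CM

variable {R : Subring ℂ} {ω : ℂ}

lemma sp_mul' (a b : R) : sp (a * b) = sp a * sp b :=
  (Ideal.span_singleton_mul_span_singleton a b).symm

lemma sp_pow' (a : R) (n : ℕ) : sp (a ^ n) = sp a ^ n :=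
  (Ideal.span_singleton_pow a n).symm

lemma sp_unit' (a : R) (u : Rˣ) : sp (a * (u : R)) = sp a :=
  Ideal.span_singleton_mul_right_unit u.isUnit a

/-- ideal numbers: `Φ I ^ h` is a generator of `I ^ h` -/
structure IN (R : Subring ℂ) (h : ℕ) (S : Finset ℂ) (Φ : Ideal R → ℂ) : Prop where
  pos : 0 < h
  alg : ∀ x ∈ S, IsAlgebraic ℚ x
  ne : ∀ I : Ideal R, I ≠ ⊥ → Φ I ≠ 0
  pow : ∀ I : Ideal R, I ≠ ⊥ → ∃ α : R, I ^ h = sp α ∧ (α : ℂ) = Φ I ^ h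
  fix : ∀ σ : ℂ ≃+* ℂ, (∀ x ∈ S, σ x = x) → (∀ r : R, σ (r : ℂ) = r) →
    ∀ I : Ideal R, I ≠ ⊥ → σ (Φ I) = Φ I

open Classical in
theorem exists_in (h3 : H_CLS) (hR : QR R ω) :
    ∃ (h : ℕ) (S : Finset ℂ) (Φ : Ideal R → ℂ), IN R h S Φ := by
  have := hR.ded
  obtain ⟨h, hh1, hpr, hsys⟩ := h3 R ω hR
  obtain ⟨s, hh, μ, T, -, hS⟩ := hsys ⊤ (by exact top_ne_bot)
  choose β hβ using hpr
  have hγ' : ∀ b : Ideal R, ∃ γ : ℂ, γ ^ h = β b := fun b =>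
    IsAlgClosed.exists_pow_nat_eq (β b : ℂ) (by omega)
  choose γ hγ using hγ'
  have hex : ∀ I : Ideal R, ∃ (b : Ideal R) (α : R), I ≠ ⊥ → (b ∈ s ∧ I * b = sp α) := by
    intro I
    by_cases hI : I = ⊥
    · exact ⟨⊥, 0, fun h => absurd hI h⟩
    · obtain ⟨b, ⟨hb, α, hα⟩, -⟩ := hS.cs.uni I hI
      exact ⟨b, α, fun _ => ⟨hb, hα⟩⟩
  choose b α hα using hex
  have hpn : ∀ I : Ideal R, I ≠ ⊥ → I ^ h ≠ ⊥ := fun I hI => pow_ne_zero h hI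
  have hβ0 : ∀ I : Ideal R, I ≠ ⊥ → (β I : ℂ) ≠ 0 := by
    intro I hI h0
    have h4 : β I = 0 := Subtype.ext h0
    have h5 := hpn I hI
    rw [hβ, h4] at h5
    exact h5 (by rw [Ideal.span_singleton_eq_bot])
  have hγ0 : ∀ I : Ideal R, I ≠ ⊥ → γ I ≠ 0 := by
    intro I hI h0
    apply hβ0 I hI
    rw [← hγ, h0, zero_pow (by omega)]
  have hbne : ∀ I : Ideal R, I ≠ ⊥ → b I ≠ ⊥ := fun I hI => hS.cs.ne _ (hα I hI).1
  have hα0 : ∀ I : Ideal R, I ≠ ⊥ → (α I : ℂ) ≠ 0 := by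
    intro I hI h0
    have h4 : α I = 0 := Subtype.ext h0
    have h5 : I * b I ≠ ⊥ := mul_ne_zero hI (hbne I hI)
    rw [(hα I hI).2, h4] at h5
    exact h5 (by rw [Ideal.span_singleton_eq_bot])
  refine ⟨h, s.image γ, fun I => (α I : ℂ) / γ (b I), by omega, ?_, ?_, ?_, ?_⟩
  · intro x hx
    obtain ⟨c, hc, rfl⟩ := Finset.mem_image.1 hx
    refine IsAlgebraic.of_pow (n := h) (by omega) ?_
    rw [hγ]
    exact alg_R hR _
  · intro I hI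
    exact div_ne_zero (hα0 I hI) (hγ0 _ (hbne I hI))
  · intro I hI
    have h4 : sp (β I * β (b I)) = sp ((α I) ^ h) := by
      rw [sp_mul', sp_pow', ← (hα I hI).2, mul_pow, hβ, hβ]
    rw [Ideal.span_singleton_eq_span_singleton] at h4
    obtain ⟨u, hu⟩ := h4
    refine ⟨β I * u, ?_, ?_⟩
    · rw [hβ, sp_unit']
    · have h5 := congrArg Subtype.val hu
      push_cast at h5
      push_cast
      rw [div_pow, hγ, eq_div_iff (hβ0 _ (hbne I hI)), ← h5]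
      ring
  · intro σ hσ hσR I hI
    rw [map_div₀, hσR, hσ _ (Finset.mem_image.2 ⟨_, (hα I hI).1, rfl⟩)]

/-- the units have finite order -/
lemma exists_w (h1 : H_BASIC) (hR : QR R ω) : ∃ w : ℕ, 0 < w ∧ ∀ u : Rˣ, ((u : R) : ℂ) ^ w = 1 := by
  obtain ⟨-, -, -, -, -, -, -, -, hU⟩ := h1 R ω hR
  have : Finite Rˣ := hU
  refine ⟨Nat.card Rˣ, Nat.card_pos, fun u => ?_⟩
  have h2 : u ^ Nat.card Rˣ = 1 := pow_card_eq_one'
  have h3 := congrArg (fun v : Rˣ => ((v : R) : ℂ)) h2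
  push_cast at h3
  simpa using h3

lemma span_pow {w : ℕ} (hw : ∀ u : Rˣ, ((u : R) : ℂ) ^ w = 1) {α β : R} (h : sp α = sp β) :
    (α : ℂ) ^ w = (β : ℂ) ^ w := by
  rw [Ideal.span_singleton_eq_span_singleton] at h
  obtain ⟨u, rfl⟩ := h
  push_cast
  rw [mul_pow, hw, mul_one]

variable {h w : ℕ} {S : Finset ℂ} {Φ : Ideal R → ℂ}

lemma IN.mul (hΦ : IN R h S Φ) (hw : ∀ u : Rˣ, ((u : R) : ℂ) ^ w = 1) {I J : Ideal R}
    (hI : I ≠ ⊥) (hJ : J ≠ ⊥) (hIJ : I * J ≠ ⊥) :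
    Φ (I * J) ^ (h * w) = (Φ I * Φ J) ^ (h * w) := by
  obtain ⟨a, ha, ha'⟩ := hΦ.pow I hI
  obtain ⟨b, hb, hb'⟩ := hΦ.pow J hJ
  obtain ⟨c, hc, hc'⟩ := hΦ.pow (I * J) hIJ
  have h1 : sp c = sp (a * b) := by
    rw [sp_mul', ← ha, ← hb, ← hc, mul_pow]
  have h2 := span_pow hw h1
  rw [pow_mul, ← hc', h2, pow_mul, mul_pow (Φ I) (Φ J) h, ← ha', ← hb']
  push_cast
  rfl

lemma IN.prin (hΦ : IN R h S Φ) (hw : ∀ u : Rˣ, ((u : R) : ℂ) ^ w = 1) {α : R} (hα : α ≠ 0) :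
    Φ (sp α) ^ (h * w) = (α : ℂ) ^ (h * w) := by
  have hne : sp α ≠ ⊥ := by
    rwa [Ne, Ideal.span_singleton_eq_bot]
  obtain ⟨a, ha, ha'⟩ := hΦ.pow (sp α) hne
  have h1 : sp a = sp (α ^ h) := by
    rw [← ha, sp_pow']
  have h2 := span_pow hw h1
  rw [pow_mul, ← ha', h2, pow_mul]
  push_cast
  rfl

lemma hc_pow {n : ℕ} {q : Ideal R} {θ : Ideal R → ℂ} (hθ : HC n q θ) (I : Ideal R) (j : ℕ) :
    θ (I ^ j) = θ I ^ j := by
  induction j with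
  | zero =>
    rw [pow_zero, pow_zero]
    have : (1 : Ideal R) = ⊤ := Ideal.one_eq_top
    rw [this]
    exact hθ.top
  | succ j ih => rw [pow_succ, hθ.mul, ih, pow_succ]

/-- the root of unity part of a Hecke character -/
noncomputable def rho (Φ : Ideal R → ℂ) (n : ℕ) (θ : Ideal R → ℂ) (I : Ideal R) : ℂ :=
  θ I / Φ I ^ n

open Classical in
/-- the attached ray class character -/
noncomputable def chi (Φ : Ideal R → ℂ) (n M : ℕ) (θ : Ideal R → ℂ) (I : Ideal R) : ℂ :=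
  if θ I = 0 then 0 else rho Φ n θ I ^ M

lemma rho_ne (hΦ : IN R h S Φ) {n : ℕ} {q : Ideal R} {θ : Ideal R → ℂ} (hθ : HC n q θ)
    {I : Ideal R} (hI : θ I ≠ 0) : rho Φ n θ I ≠ 0 := by
  have hI' := hI
  rw [Ne, hθ.zero, not_or] at hI'
  exact div_ne_zero hI (pow_ne_zero _ (hΦ.ne I hI'.1))

lemma chi_zero (hΦ : IN R h S Φ) {n M : ℕ} {q : Ideal R} {θ : Ideal R → ℂ} (hθ : HC n q θ)
    (I : Ideal R) : chi Φ n M θ I = 0 ↔ θ I = 0 := by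
  unfold chi
  split_ifs with hI
  · simp [hI]
  · simp only [hI, iff_false]
    exact pow_ne_zero _ (rho_ne hΦ hθ hI)

lemma rho_pow (hΦ : IN R h S Φ) {n : ℕ} {q : Ideal R} {θ : Ideal R → ℂ} (hθ : HC n q θ)
    {d : ℕ} (hd : ∀ α : R, IsCoprime (sp α) q → fp n θ α ^ d = 1) {I : Ideal R}
    (hI : θ I ≠ 0) : rho Φ n θ I ^ (h * d) = 1 := by
  have hI' := hI
  rw [Ne, hθ.zero, not_or, not_not] at hI'
  obtain ⟨a, ha, ha'⟩ := hΦ.pow I hI'.1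
  have hcop : IsCoprime (sp a) q := by
    rw [← ha]
    exact hI'.2.pow_left
  have h1 := hd a hcop
  have h2 : rho Φ n θ I ^ h = fp n θ a := by
    unfold rho fp
    rw [div_pow, ← hc_pow hθ, ha, ← pow_mul, mul_comm n h, pow_mul, ← ha']
  rw [pow_mul, h2, h1]

theorem chi_rc (hΦ : IN R h S Φ) (hw : ∀ u : Rˣ, ((u : R) : ℂ) ^ w = 1)
    (hR : QR R ω) {n M : ℕ} (hM : h * w ∣ M) {q : Ideal R} {θ : Ideal R → ℂ} (hθ : HC n q θ) :
    RC q (chi Φ n M θ) := by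
  have := hR.ded
  obtain ⟨k, rfl⟩ := hM
  refine ⟨hθ.ne, fun I J => ?_, fun I => ?_, fun α hα hαq => ?_⟩
  · by_cases hI : θ I = 0
    · have hIJ : θ (I * J) = 0 := by rw [hθ.mul, hI, zero_mul]
      unfold chi
      rw [if_pos hI, if_pos hIJ, zero_mul]
    by_cases hJ : θ J = 0
    · have hIJ : θ (I * J) = 0 := by rw [hθ.mul, hJ, mul_zero]
      unfold chi
      rw [if_pos hJ, if_pos hIJ, mul_zero]
    have hIJ : θ (I * J) ≠ 0 := by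
      rw [hθ.mul]
      exact mul_ne_zero hI hJ
    have nI : I ≠ ⊥ := fun h0 => hI ((hθ.zero I).2 (Or.inl h0))
    have nJ : J ≠ ⊥ := fun h0 => hJ ((hθ.zero J).2 (Or.inl h0))
    have nIJ : I * J ≠ ⊥ := mul_ne_zero nI nJ
    unfold chi
    rw [if_neg hI, if_neg hJ, if_neg hIJ]
    unfold rho
    have e1 : (Φ (I * J) ^ n) ^ (h * w) = ((Φ I * Φ J) ^ n) ^ (h * w) := by
      rw [← pow_mul, mul_comm n, pow_mul, hΦ.mul hw nI nJ nIJ, ← pow_mul, mul_comm _ n, pow_mul]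
    have e2 : (θ (I * J) / Φ (I * J) ^ n) ^ (h * w) =
        (θ I / Φ I ^ n * (θ J / Φ J ^ n)) ^ (h * w) := by
      rw [div_pow, e1, hθ.mul, ← div_pow, mul_pow (Φ I), div_mul_div_comm]
    rw [pow_mul, e2, ← pow_mul, mul_pow]
  · rw [chi_zero hΦ hθ, hθ.zero]
  · have h1 := hθ.princ α hα hαq
    have hα' : (α : ℂ) ≠ 0 := fun h0 => hα (Subtype.ext h0)
    have hne : θ (sp α) ≠ 0 := by
      rw [h1]
      exact pow_ne_zero _ hα'
    unfold chi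
    rw [if_neg hne]
    unfold rho
    have e1 : (Φ (sp α) ^ n) ^ (h * w) = ((α : ℂ) ^ n) ^ (h * w) := by
      rw [← pow_mul, mul_comm n, pow_mul, hΦ.prin hw hα, ← pow_mul, mul_comm _ n, pow_mul]
    rw [h1, pow_mul, div_pow, e1, div_self, one_pow]
    exact pow_ne_zero _ (pow_ne_zero _ hα')

/-- the relation of the orders -/
theorem chi_ord (hΦ : IN R h S Φ) (hw : ∀ u : Rˣ, ((u : R) : ℂ) ^ w = 1)
    {n M : ℕ} (hM : h * w ∣ M) (hM0 : 0 < M) {q : Ideal R} {θ : Ideal R → ℂ} (hθ : HC n q θ)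
    {d : ℕ} (hdl : ∀ e : ℕ, 0 < e → (∀ α : R, IsCoprime (sp α) q → fp n θ α ^ e = 1) → d ≤ e)
    (hq : q ≠ ⊤) {d' : ℕ} (hd' : Od (chi Φ n M θ) d') : d ≤ M * d' := by
  refine hdl _ (Nat.mul_pos hM0 hd'.pos) fun α hα => ?_
  have hα0 : α ≠ 0 := by
    intro h0
    rw [h0] at hα
    have : sp (0 : R) = ⊥ := by rw [Ideal.span_singleton_eq_bot]
    rw [this] at hα
    apply hq
    have h2 : IsCoprime (0 : Ideal R) q := hα
    rw [isCoprime_zero_left] at h2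
    exact Ideal.isUnit_iff.1 h2
  have hα' : (α : ℂ) ≠ 0 := fun h0 => hα0 (Subtype.ext h0)
  have hne : sp α ≠ ⊥ := by
    rwa [Ne, Ideal.span_singleton_eq_bot]
  have hθn : θ (sp α) ≠ 0 := by
    rw [Ne, hθ.zero, not_or, not_not]
    exact ⟨hne, hα⟩
  have h2 := hd'.pow (sp α) (by rwa [Ne, chi_zero hΦ hθ])
  unfold chi at h2
  rw [if_neg hθn] at h2
  obtain ⟨k, rfl⟩ := hM
  have e1 : (Φ (sp α) ^ n) ^ (h * w) = ((α : ℂ) ^ n) ^ (h * w) := by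
    rw [← pow_mul, mul_comm n, pow_mul, hΦ.prin hw hα0, ← pow_mul, mul_comm _ n, pow_mul]
  have e2 : fp n θ α ^ (h * w) = rho Φ n θ (sp α) ^ (h * w) := by
    unfold rho fp
    rw [div_pow, div_pow, e1]
  rw [← h2, pow_mul, pow_mul, e2, ← pow_mul (rho Φ n θ (sp α)) (h * w) k]

/-- **The Galois action.** -/
theorem exists_chi (h1 : H_BASIC) (h3 : H_CLS) (h4 : H_FPR) (hR : QR R ω)
    (S1 : Finset ℂ) (hS1 : ∀ x ∈ S1, IsAlgebraic ℚ x)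
    (hSR : ∀ σ : ℂ ≃+* ℂ, (∀ x ∈ S1, σ x = x) → ∀ r : R, σ (r : ℂ) = r) :
    ∃ M : ℕ, 0 < M ∧ ∀ (n : ℕ) (q : Ideal R) (θ : Ideal R → ℂ), HC n q θ → q ≠ ⊤ →
      ∀ d : ℕ, (∀ e : ℕ, 0 < e → (∀ α : R, IsCoprime (sp α) q → fp n θ α ^ e = 1) → d ≤ e) →
      ∃ (χ : Ideal R → ℂ) (d' : ℕ), RC q χ ∧ Od χ d' ∧ d ≤ M * d' ∧
        ∀ b ∈ Eb d' M, ∃ σ : ℂ ≃+* ℂ, (∀ x ∈ S1, σ x = x) ∧
          ∀ I, σ (θ I) = θ I * pw χ b I := by
  classical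
  obtain ⟨h, S2, Φ, hΦ⟩ := exists_in h3 hR
  obtain ⟨w, hw0, hw⟩ := exists_w h1 hR
  obtain ⟨M', hM', hMσ⟩ := exists_aut_fix (S1 ∪ S2) (fun x hx => by
    rcases Finset.mem_union.1 hx with h | h
    · exact hS1 x h
    · exact hΦ.alg x h)
  have hM0 : 0 < M' * (h * w) := Nat.mul_pos hM' (Nat.mul_pos hΦ.pos hw0)
  refine ⟨M' * (h * w), hM0, fun n q θ hθ hq d hdl => ?_⟩
  set M := M' * (h * w) with hM
  have hdvd : h * w ∣ M := Dvd.intro_left _ rfl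
  have hrc := chi_rc hΦ hw hR hdvd hθ
  obtain ⟨-, -, -, d', hd'⟩ := h4 R ω hR q _ hrc
  refine ⟨chi Φ n M θ, d', hrc, hd', chi_ord hΦ hw hdvd hM0 hθ hdl hq hd', fun b hb => ?_⟩
  have hcop : Nat.Coprime (1 + M * b) d' := (Finset.mem_filter.1 hb).2
  have hcop2 : Nat.Coprime (1 + M * b) M := by
    rw [Nat.coprime_add_mul_left_left]
    exact Nat.coprime_one_left M
  obtain ⟨σ, hσS, hσμ⟩ := hMσ (M * d') (1 + M * b) (Nat.mul_pos hM0 hd'.pos)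
    (Nat.Coprime.mul_right hcop2 hcop) (by
      rw [hM, mul_assoc, Nat.add_mul_mod_self_left])
  have hσ1 : ∀ x ∈ S1, σ x = x := fun x hx => hσS x (Finset.mem_union_left _ hx)
  have hσR := hSR σ hσ1
  refine ⟨σ, hσ1, fun I => ?_⟩
  by_cases hI : θ I = 0
  · rw [hI, map_zero, zero_mul]
  have nI : I ≠ ⊥ := fun h0 => hI ((hθ.zero I).2 (Or.inl h0))
  have hσΦ : σ (Φ I) = Φ I := hΦ.fix σ (fun x hx => hσS x (Finset.mem_union_right _ hx)) hσR I nI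
  have hχ : chi Φ n M θ I ≠ 0 := by rwa [Ne, chi_zero hΦ hθ]
  have h5 := hd'.pow I hχ
  have h6 : chi Φ n M θ I = rho Φ n θ I ^ M := by
    unfold chi
    rw [if_neg hI]
  rw [h6, ← pow_mul] at h5
  have h7 := hσμ _ h5
  have h8 : θ I = rho Φ n θ I * Φ I ^ n := by
    unfold rho
    rw [div_mul_cancel₀ _ (pow_ne_zero _ (hΦ.ne I nI))]
  have h9 : pw (chi Φ n M θ) b I = (rho Φ n θ I ^ M) ^ b := by
    unfold pw
    rw [if_neg hχ, h6]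
  rw [h9]
  calc σ (θ I) = σ (rho Φ n θ I * Φ I ^ n) := by rw [← h8]
    _ = rho Φ n θ I ^ (1 + M * b) * Φ I ^ n := by rw [map_mul, map_pow, hσΦ, h7]
    _ = (rho Φ n θ I * Φ I ^ n) * (rho Φ n θ I ^ M) ^ b := by
        rw [pow_add, pow_one, pow_mul]
        ring
    _ = _ := by rw [← h8]

/-- the conjugate of a Hecke character -/
theorem hc_aut {n : ℕ} {q : Ideal R} {θ : Ideal R → ℂ} (hθ : HC n q θ) (σ : ℂ ≃+* ℂ)
    (hσR : ∀ r : R, σ (r : ℂ) = r) {θ' : Ideal R → ℂ} (h : ∀ I, σ (θ I) = θ' I) :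
    HC n q θ' := by
  refine ⟨hθ.ne, fun I J => ?_, fun I => ?_, fun α hα hαq => ?_, fun q' hq' => ?_⟩
  · rw [← h, ← h, ← h, hθ.mul, map_mul]
  · rw [← h, map_eq_zero, hθ.zero]
  · rw [← h, hθ.princ α hα hαq, map_pow, hσR]
  · obtain ⟨α, h1, h2, h3, h4⟩ := hθ.prim q' hq'
    refine ⟨α, h1, h2, h3, fun h5 => h4 ?_⟩
    apply σ.injective
    rw [h, h5, map_pow, hσR]

end Pool.Agent.Y683
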